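import Pool.Agent.TH793.SB.Tiles

set_option autoImplicit false

/-! # Basic definitions and the statements of the modules -/

namespace Pool.Agent.TH793.SB

/-- `n` steps in direction `i` -/
def st (i : Fin 3) (n : ℤ) : Site := fun j => if j = i then n else 0

/-- all three edges leaving `u` in positive directions match -/
def Good (Y : Cfg) (u : Site) : Prop := ∀ i : Fin 3, In i (Y (u + st i 1)) = Out i (Y u) + 1

/-- the sites with a broken edge -/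
def bad (Y : Cfg) : Set Site := {u | ¬ Good Y u}

/-- valid tilings -/
def Valid (Y : Cfg) : Prop := ∀ u, Good Y u

/-- box with corner `x` and sides `n` -/
def box (x n : Site) : Set Site := {u | ∀ i, x i ≤ u i ∧ u i < x i + n i}

/-- cube with corner `x` and side `n` -/
def cube (x : Site) (n : ℤ) : Set Site := {u | ∀ i, x i ≤ u i ∧ u i < x i + n}

/-- centred cube `w + [-n, n]³` -/
def ball (w : Site) (n : ℤ) : Set Site := {u | ∀ i, |u i - w i| ≤ n}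

/-- no broken edge at the sites of `S` -/
def Free (Y : Cfg) (S : Set Site) : Prop := ∀ u ∈ S, Good Y u

/-- `u` lies in the lattice `c + 2 ^ k ℤ³` -/
def InP (c : Site) (k : ℕ) (u : Site) : Prop := ∀ i, (2 : ℤ) ^ k ∣ u i - c i

/-- `u` lies in `c + 2 ^ k ℤ³`, and `d i` tells whether `2 ^ (k + 1)` fails to divide
`u i - c i` -/
def Lev (c : Site) (k : ℕ) (d : Lab) (u : Site) : Prop :=
  InP c k u ∧ ∀ i, (d i = true ↔ ¬ (2 : ℤ) ^ (k + 1) ∣ u i - c i)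

/-- `Y` is organised on `S` up to level `K` with offset `c` -/
def Org (Y : Cfg) (S : Set Site) (c : Site) (K : ℕ) : Prop :=
  ∀ k < K, ∀ d : Lab, d ≠ zl → ∀ u ∈ S, Lev c k d u → lab (Y u) = d ∧ okLev k (Y u)

/-- local sites of level at least `k` -/
def LL (Y : Cfg) (k : ℕ) : Set Site :=
  {u | ∃ x c : Site, u ∈ cube x (2 ^ k) ∧ Free Y (cube x (2 ^ k)) ∧ Org Y (cube x (2 ^ k)) c k ∧
    InP c k u}

/-- local sites of level exactly `k` with label `d` -/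
def SS (Y : Cfg) (k : ℕ) (d : Lab) : Set Site :=
  {u | ∃ x c : Site, u ∈ cube x (2 ^ (k + 1)) ∧ Free Y (cube x (2 ^ (k + 1))) ∧
    Org Y (cube x (2 ^ (k + 1))) c (k + 1) ∧ Lev c k d u}

/-- sites of level at least `K` with a free neighbourhood -/
def PK (Y : Cfg) (K : ℕ) : Set Site :=
  {w | ∃ c : Site, Free Y (ball w (2 ^ K)) ∧ Org Y (ball w (2 ^ K)) c K ∧ InP c K w}

/-! ## statements -/

/-- label theorem -/
def LabelThm : Prop :=
  ∀ (x n : Site), (∀ i, 2 ≤ n i) → ∀ L : Site → Lab, (∀ u ∈ box x n, L u ≠ zl) →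
    (∀ u ∈ box x n, ∀ i, u + st i 1 ∈ box x n →
      L u = el i ∨ L (u + st i 1) = el i ∨ L (u + st i 1) = flp i (L u)) →
    ∃ α : Site, ∀ u ∈ box x n, ∀ d : Lab, d ≠ zl → (∀ i, d i = true ↔ Odd (u i + α i)) → L u = d

/-- box theorem -/
def BoxThm : Prop :=
  ∀ (Y : Cfg) (K : ℕ) (x n : Site), (∀ i, 2 ^ K ≤ n i) → Free Y (box x n) →
    ∃ c, Org Y (box x n) c K

/-- uniqueness of the offset -/
def OrgUnique : Prop :=
  ∀ (Y : Cfg) (K : ℕ) (x n : Site), (∀ i, 2 ^ K ≤ n i) → ∀ c c' : Site,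
    Org Y (box x n) c K → Org Y (box x n) c' K → ∀ i, (2 : ℤ) ^ K ∣ c i - c' i

/-- multiplicity of local level `j` sites -/
def Mult : Prop :=
  ∀ (Y : Cfg) (j : ℕ) (S : Finset Site), (∀ u ∈ S, u ∈ LL Y j) →
    (∀ u ∈ S, ∀ v ∈ S, ∀ i, 4 * |u i - v i| < 2 ^ j) → S.card ≤ 8

/-- conflicting level `k` sites see two broken edges far from each other -/
def Conflict : Prop :=
  ∀ (Y : Cfg) (k : ℕ) (d : Lab) (u u' : Site), d ≠ zl → u ∈ SS Y k d → u' ∈ SS Y k d → u ≠ u' →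
    (∀ i, |u i - u' i| < 2 ^ (k + 1)) →
    ∃ b ∈ bad Y, ∃ b' ∈ bad Y, b ∈ ball u (10 * 2 ^ k) ∧ b' ∈ ball u (10 * 2 ^ k) ∧
      ∃ i, 2 ^ k ≤ 2 * |b i - b' i|

/-- unresolved sites see two broken edges far from each other -/
def Unres : Prop :=
  ∀ (Y : Cfg) (j : ℕ) (u : Site), u ∈ LL Y j → u ∉ LL Y (j + 1) →
    (∀ k ≤ j, ∀ d : Lab, d ≠ zl → u ∉ SS Y k d) →
    ∃ b ∈ bad Y, ∃ b' ∈ bad Y, b ∈ ball u (10 * 2 ^ j) ∧ b' ∈ ball u (10 * 2 ^ j) ∧
      (1 ≤ j → ∃ i, 2 ^ j ≤ 2 * |b i - b' i|)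

/-- covering -/
def Cover : Prop :=
  ∀ R : ℕ, ∃ C : ℕ, ∀ (j : ℕ) (p : Site) (S : Finset Site), (∀ u ∈ S, u ∈ ball p (R * 2 ^ j)) →
    (∀ T ⊆ S, (∀ u ∈ T, ∀ v ∈ T, ∀ i, 4 * |u i - v i| < 2 ^ j) → T.card ≤ 8) → S.card ≤ C

/-- the nested nets lemma -/
def Nets : Prop :=
  ∃ C : ℕ, ∀ (B : Finset Site) (M : ℕ) (W : ℕ → Finset Site),
    (∀ j < M, ∀ u ∈ W j, ∃ b ∈ B, ∃ b' ∈ B, b ∈ ball u (10 * 2 ^ j) ∧ b' ∈ ball u (10 * 2 ^ j) ∧
      ∃ i, 2 ^ j ≤ 2 * |b i - b' i|) →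
    (∀ j < M, ∀ T ⊆ W j, (∀ u ∈ T, ∀ v ∈ T, ∀ i, 4 * |u i - v i| < 2 ^ j) → T.card ≤ 8) →
    ∑ j ∈ Finset.range M, (W j).card ≤ C * B.card

open scoped Classical in
/-- one-sided bound for every family, at level `K` -/
def OneSided : Prop :=
  ∀ K : ℕ, ∃ C : ℝ, ∀ X Y : Cfg, Valid X → {u | Y u ≠ X u}.Finite → (bad Y).Nonempty →
    ∀ F : ST, ∑ᶠ u : Site, ((if u ∈ PK Y K ∧ fam (Y u) = F then (1 : ℝ) else 0) -
      (if u ∈ PK X K ∧ fam (X u) = F then (1 : ℝ) else 0)) ≤ C * (bad Y).ncard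

open scoped Classical in
/-- lower bound for the number of level `K` sites -/
def TotalLower : Prop :=
  ∀ K : ℕ, ∃ C : ℝ, ∀ X Y : Cfg, Valid X → {u | Y u ≠ X u}.Finite →
    -(C * (bad Y).ncard) ≤ ∑ᶠ u : Site, ((if u ∈ PK Y K then (1 : ℝ) else 0) -
      (if u ∈ PK X K then (1 : ℝ) else 0))

/-- no finite differences between valid tilings -/
def Rigid : Prop :=
  ∀ X Y : Cfg, Valid X → Valid Y → {u | Y u ≠ X u}.Finite → Y = X

/-- the tile at a level `K` site determines the open cube of radius `2 ^ K` around it -/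
def Determ : Prop :=
  ∀ (K : ℕ) (Y Y' : Cfg) (w w' : Site), w ∈ PK Y K → w' ∈ PK Y' K → Y w = Y' w' →
    ∀ v : Site, (∀ i, |v i| < 2 ^ K) → Y (w + v) = Y' (w' + v)

open scoped Classical in
/-- two-sided bound for every tile at level `K` -/
def TileBound : Prop :=
  ∀ K : ℕ, ∃ C : ℝ, ∀ X Y : Cfg, Valid X → {u | Y u ≠ X u}.Finite → ∀ t : Tile,
    |∑ᶠ u : Site, ((if u ∈ PK Y K ∧ Y u = t then (1 : ℝ) else 0) -
      (if u ∈ PK X K ∧ X u = t then (1 : ℝ) else 0))| ≤ C * (bad Y).ncard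

open scoped Classical in
/-- strict boundary condition -/
def SBC : Prop :=
  ∀ (DA : Finset Site) (pA : Site → Tile), ∃ C : ℝ, ∀ X Y : Cfg, Valid X →
    {u | Y u ≠ X u}.Finite →
    |∑ᶠ a : Site, ((if ∀ i ∈ DA, Y (i + a) = pA i then (1 : ℝ) else 0) -
      (if ∀ i ∈ DA, X (i + a) = pA i then (1 : ℝ) else 0))| ≤ C * (bad Y).ncard

/-- no periods -/
def NoPer : Prop := ∀ X : Cfg, Valid X → ∀ a : Site, (∀ u, X (u - a) = X u) → a = 0

/-- existence -/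
def Exist : Prop := ∃ X : Cfg, Valid X

/-- existence of invariant measures -/
def InvMeas : Prop :=
  ∀ (d k : ℕ) (Ω : Set ((Fin d → ℤ) → Fin k)), Ω.Nonempty → IsClosed Ω →
    (∀ X ∈ Ω, ∀ a : Fin d → ℤ, (fun i => X (i - a)) ∈ Ω) →
    ∃ μ : MeasureTheory.Measure ((Fin d → ℤ) → Fin k), MeasureTheory.IsProbabilityMeasure μ ∧
      μ Ωᶜ = 0 ∧ ∀ a : Fin d → ℤ,
        MeasureTheory.Measure.map (fun X : (Fin d → ℤ) → Fin k => fun i => X (i - a)) μ = μ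

open scoped Classical in
/-- uniform patch counts give uniqueness of the invariant measure -/
def UniqMeas : Prop :=
  ∀ (d k : ℕ) (Ω : Set ((Fin d → ℤ) → Fin k)), 1 ≤ d →
    (∀ (DA : Finset (Fin d → ℤ)) (pA : (Fin d → ℤ) → Fin k), ∃ C : ℝ, ∀ X ∈ Ω, ∀ X' ∈ Ω,
      ∀ L : ℕ, 1 ≤ L →
      |(((Fintype.piFinset fun _ : Fin d => Finset.Ico (0 : ℤ) L).filter
          fun a => ∀ i ∈ DA, X (i + a) = pA i).card : ℝ) -
        (((Fintype.piFinset fun _ : Fin d => Finset.Ico (0 : ℤ) L).filter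
          fun a => ∀ i ∈ DA, X' (i + a) = pA i).card : ℝ)| ≤ C * (L : ℝ) ^ (d - 1)) →
    ∀ μ ν : MeasureTheory.Measure ((Fin d → ℤ) → Fin k),
      MeasureTheory.IsProbabilityMeasure μ → MeasureTheory.IsProbabilityMeasure ν →
      μ Ωᶜ = 0 → ν Ωᶜ = 0 →
      (∀ a : Fin d → ℤ,
        MeasureTheory.Measure.map (fun X : (Fin d → ℤ) → Fin k => fun i => X (i - a)) μ = μ) →
      (∀ a : Fin d → ℤ,
        MeasureTheory.Measure.map (fun X : (Fin d → ℤ) → Fin k => fun i => X (i - a)) ν = ν) →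
      μ = ν

open scoped Classical in
/-- patch counts of two valid tilings in a cube differ by a surface term -/
def CountDiff : Prop :=
  ∀ (DA : Finset Site) (pA : Site → Tile), ∃ C : ℝ, ∀ X X' : Cfg, Valid X → Valid X' →
    ∀ L : ℕ, 1 ≤ L →
    |(((Fintype.piFinset fun _ : Fin 3 => Finset.Ico (0 : ℤ) L).filter
        fun a => ∀ i ∈ DA, X (i + a) = pA i).card : ℝ) -
      (((Fintype.piFinset fun _ : Fin 3 => Finset.Ico (0 : ℤ) L).filter
        fun a => ∀ i ∈ DA, X' (i + a) = pA i).card : ℝ)| ≤ C * (L : ℝ) ^ 2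

end Pool.Agent.TH793.SB
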