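import Pool.Agent.TH793.SB.TileB

set_option autoImplicit false

/-! # The Strict Boundary Condition -/

namespace Pool.Agent.TH793.SB

open scoped Classical

lemma DD_sum {ι : Type} (H : Finset ι) (f g : ι → Site → ℝ) (V : Finset Site)
    (h : ∀ j ∈ H, ∀ u ∉ V, f j u = g j u) :
    DD (fun u => ∑ j ∈ H, f j u) (fun u => ∑ j ∈ H, g j u) = ∑ j ∈ H, DD (f j) (g j) := by
  rw [DD_eq_sum V fun u hu => Finset.sum_congr rfl fun j hj => h j hj u hu,
    Finset.sum_congr rfl fun j hj => DD_eq_sum V (h j hj), Finset.sum_comm]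
  refine Finset.sum_congr rfl fun u _ => ?_
  rw [← Finset.sum_sub_distrib]

/-- offsets in the half open cube -/
noncomputable def hcube (h : ℤ) : Finset Site := Fintype.piFinset fun _ => Finset.Ico (-h) h

lemma mem_hcube {h : ℤ} {v : Site} : v ∈ hcube h ↔ ∀ i, -h ≤ v i ∧ v i < h := by
  unfold hcube
  simp only [Fintype.mem_piFinset, Finset.mem_Ico]

/-- pattern at offset `v` from a lattice site with tile `t` -/
def Psi (K : ℕ) (DA : Finset Site) (pA : Site → Tile) (t : Tile) (v : Site) : Prop :=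
  ∃ (Z : Cfg) (w : Site), w ∈ PK Z K ∧ Z w = t ∧ ∀ i ∈ DA, Z (i + (w + v)) = pA i

lemma psi_iff (hD : Determ) {K : ℕ} {DA : Finset Site} {pA : Site → Tile} {Z : Cfg} {w v : Site}
    (hw : w ∈ PK Z K) (hv : ∀ i ∈ DA, ∀ j, |v j + i j| < 2 ^ K) :
    (∀ i ∈ DA, Z (i + (w + v)) = pA i) ↔ Psi K DA pA (Z w) v := by
  constructor
  · intro h
    exact ⟨Z, w, hw, rfl, h⟩
  · rintro ⟨Z', w', hw', ht, h⟩ i hi
    rw [← h i hi]
    have := hD K Z Z' w w' hw hw' ht.symm (v + i) (hv i hi)
    rw [show i + (w + v) = w + (v + i) by abel, show i + (w' + v) = w' + (v + i) by abel]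
    exact this

/-- the unique lattice site near a site -/
lemma match_eq (hB : BoxThm) (hU : OrgUnique) (hD : Determ) {K : ℕ} (hK : 1 ≤ K)
    {DA : Finset Site} {pA : Site → Tile}
    (hDA : ∀ i ∈ DA, ∀ j, |i j| < 2 ^ (K - 1)) {Z : Cfg} {a : Site}
    (hf : Free Z (ball a (3 * 2 ^ K))) :
    ind (∀ i ∈ DA, Z (i + a) = pA i) =
      ∑ v ∈ hcube (2 ^ (K - 1)), ind (a - v ∈ PK Z K ∧ Psi K DA pA (Z (a - v)) v) := by
  have hp : (0 : ℤ) < 2 ^ K := by positivity
  have hh : (2 : ℤ) ^ K = 2 * 2 ^ (K - 1) := by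
    rw [← pow_succ']
    congr 1
    omega
  obtain ⟨c, ho⟩ := free_org (K := K) hB (by linarith) hf
  set h : ℤ := 2 ^ (K - 1) with hhd
  have hhp : 0 < h := by positivity
  have hsub : ∀ v ∈ hcube h, ball (a - v) (2 ^ K) ⊆ ball a (3 * 2 ^ K) := by
    intro v hv u hu j
    have h1 := hu j
    have h2 := mem_hcube.1 hv j
    simp only [Pi.sub_apply] at h1
    rw [abs_le] at h1 ⊢
    constructor <;> linarith [h1.1, h1.2, h2.1, h2.2]
  have hpk : ∀ v ∈ hcube h, (a - v ∈ PK Z K ↔ InP c K (a - v)) := fun v hv =>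
    PK_of_free hU hf ho (hsub v hv)
  set v0 : Site := fun i => (a i - c i + h) % 2 ^ K - h with hv0
  have hv0m : v0 ∈ hcube h := by
    rw [mem_hcube]
    intro i
    have h1 := Int.emod_nonneg (a i - c i + h) hp.ne'
    have h2 := Int.emod_lt_of_pos (a i - c i + h) hp
    simp only [hv0]
    constructor <;> linarith
  have hv0i : InP c K (a - v0) := by
    intro i
    have h1 := Int.emod_add_mul_ediv (a i - c i + h) (2 ^ K)
    refine ⟨(a i - c i + h) / 2 ^ K, ?_⟩
    simp only [Pi.sub_apply, hv0]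
    linarith
  have huniq : ∀ v ∈ hcube h, InP c K (a - v) → v = v0 := by
    intro v hv hi
    funext i
    have h1 := hi i
    have h2 := hv0i i
    have h3 := dvd_sub h2 h1
    have h4 := mem_hcube.1 hv i
    have h5 := mem_hcube.1 hv0m i
    simp only [Pi.sub_apply] at h3
    have h6 : |a i - v0 i - c i - (a i - v i - c i)| < 2 ^ K := by
      rw [abs_lt]
      constructor <;> linarith [h4.1, h4.2, h5.1, h5.2]
    have h7 := Int.eq_zero_of_abs_lt_dvd h3 h6
    linarith
  rw [Finset.sum_eq_single_of_mem v0 hv0m]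
  · refine ind_congr ?_
    have hw : a - v0 ∈ PK Z K := (hpk v0 hv0m).2 hv0i
    have h1 := psi_iff hD (pA := pA) (DA := DA) (v := v0) hw (fun i hi j => by
      have h2 := hDA i hi j
      have h3 := mem_hcube.1 hv0m j
      rw [abs_lt] at h2 ⊢
      constructor <;> linarith [h2.1, h2.2, h3.1, h3.2])
    rw [sub_add_cancel] at h1
    rw [h1]
    tauto
  · intro v hv hne
    unfold ind
    rw [if_neg]
    rintro ⟨h1, -⟩
    exact hne (huniq v hv ((hpk v hv).1 h1))

/-- **The Strict Boundary Condition.** -/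
theorem sbc (hT : TileBound) (hD : Determ) (hB : BoxThm) (hU : OrgUnique) : SBC := by
  intro DA pA
  obtain ⟨R, hR⟩ := exists_radius (Finset.finite_toSet DA)
  set K : ℕ := R + 1 with hK
  obtain ⟨C, hC⟩ := hT K
  have hDA : ∀ i ∈ DA, ∀ j, |i j| < 2 ^ (K - 1) := by
    intro i hi j
    have h1 := hR i hi j
    simp only [Pi.zero_apply, sub_zero] at h1
    have h2 : R < 2 ^ R := Nat.lt_two_pow_self
    have h3 : (R : ℤ) < 2 ^ R := by exact_mod_cast h2
    rw [hK, Nat.add_sub_cancel]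
    linarith
  set H : Finset Site := hcube (2 ^ (K - 1)) with hH
  set T : ℝ := (Fintype.card Tile : ℝ) with hTd
  refine ⟨(1 + H.card) * (2 * ((3 * 2 ^ K : ℕ) : ℝ) + 1) ^ 3 + H.card * (T * max C 0),
    fun X Y hX hfin => ?_⟩
  simp only [ite_eq_ind]
  have hp : (0 : ℤ) < 2 ^ K := by positivity
  have hb : (0 : ℝ) ≤ ((bad Y).ncard : ℝ) := Nat.cast_nonneg _
  obtain ⟨V, hV⟩ := exists_region hfin (3 * 2 ^ K)
  set B : Finset Site := (bad_finite hX hfin).toFinset with hBd
  have hBm : ∀ u, u ∈ B ↔ u ∈ bad Y := fun u => Set.Finite.mem_toFinset _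
  have hBc : (bad Y).ncard = B.card := Set.ncard_eq_toFinset_card _ _
  have hagree : ∀ u ∉ V, ∀ v ∈ ball u (3 * 2 ^ K), X v = Y v := by
    intro u hu v hv
    refine (hV u hu v ?_).1
    push_cast
    exact hv
  have hm : ∀ u ∉ V, ind (∀ i ∈ DA, Y (i + u) = pA i) = ind (∀ i ∈ DA, X (i + u) = pA i) := by
    intro u hu
    refine ind_congr (forall_congr' fun i => forall_congr' fun hi => ?_)
    rw [hagree u hu (i + u)]
    intro j
    have := hDA i hi j
    simp only [Pi.add_apply, add_sub_cancel_right]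
    have h2 : (2 : ℤ) ^ (K - 1) ≤ 2 ^ K := pow_le_pow_right₀ (by norm_num) (Nat.sub_le _ _)
    linarith
  have hsub : ∀ v ∈ H, ∀ u : Site, ball (u - v) (2 ^ K) ⊆ ball u (3 * 2 ^ K) := by
    intro v hv u w hw j
    have h1 := hw j
    have h2 := mem_hcube.1 hv j
    have h3 : (2 : ℤ) ^ (K - 1) ≤ 2 ^ K := pow_le_pow_right₀ (by norm_num) (Nat.sub_le _ _)
    simp only [Pi.sub_apply] at h1
    rw [abs_le] at h1 ⊢
    constructor <;> linarith [h1.1, h1.2, h2.1, h2.2]
  have hps : ∀ v ∈ H, ∀ u ∉ V, ind (u - v ∈ PK Y K ∧ Psi K DA pA (Y (u - v)) v) =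
      ind (u - v ∈ PK X K ∧ Psi K DA pA (X (u - v)) v) := by
    intro v hv u hu
    have h1 : Agree X Y (ball (u - v) (2 ^ K)) := by
      refine (hV u hu).mono ?_
      have := hsub v hv u
      push_cast
      exact this
    rw [h1.self hp.le, propext (mem_PK_congr h1)]
  have key := DD_near (f := fun u => ind (∀ i ∈ DA, Y (i + u) = pA i))
    (g := fun u => ind (∀ i ∈ DA, X (i + u) = pA i))
    (f' := fun u => ∑ v ∈ H, ind (u - v ∈ PK Y K ∧ Psi K DA pA (Y (u - v)) v))
    (g' := fun u => ∑ v ∈ H, ind (u - v ∈ PK X K ∧ Psi K DA pA (X (u - v)) v)) V hm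
    (fun u hu => Finset.sum_congr rfl fun v hv => hps v hv u hu)
    (fun u => match_eq hB hU hD (by omega) hDA fun v _ => hX v) B (3 * 2 ^ K) (1 + H.card)
    (by positivity)
    (fun u hu => match_eq hB hU hD (by omega) hDA fun v hv => by
      by_contra hbad
      refine hu v ((hBm v).2 hbad) ?_
      push_cast
      exact hv)
    (fun u => by
      have h1 : |ind (∀ i ∈ DA, Y (i + u) = pA i)| ≤ 1 := by
        rw [abs_of_nonneg (ind_nonneg _)]
        exact ind_le_one _
      have h2 : |∑ v ∈ H, ind (u - v ∈ PK Y K ∧ Psi K DA pA (Y (u - v)) v)| ≤ H.card := by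
        rw [abs_of_nonneg (Finset.sum_nonneg fun v _ => ind_nonneg _)]
        refine (Finset.sum_le_card_nsmul _ _ 1 fun v _ => ind_le_one _).trans ?_
        simp
      exact (abs_sub _ _).trans (add_le_add h1 h2))
  have h2 : DD (fun u => ∑ v ∈ H, ind (u - v ∈ PK Y K ∧ Psi K DA pA (Y (u - v)) v))
      (fun u => ∑ v ∈ H, ind (u - v ∈ PK X K ∧ Psi K DA pA (X (u - v)) v)) =
      ∑ v ∈ H, NN X Y K (fun t => Psi K DA pA t v) := by
    rw [DD_sum H (fun v u => ind (u - v ∈ PK Y K ∧ Psi K DA pA (Y (u - v)) v))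
      (fun v u => ind (u - v ∈ PK X K ∧ Psi K DA pA (X (u - v)) v)) V hps]
    refine Finset.sum_congr rfl fun v _ => ?_
    have := DD_shift (fun u => ind (u ∈ PK Y K ∧ Psi K DA pA (Y u) v))
      (fun u => ind (u ∈ PK X K ∧ Psi K DA pA (X u) v)) (-v)
    simp only [← sub_eq_add_neg] at this
    exact this
  have h3 : ∀ v ∈ H, |NN X Y K (fun t => Psi K DA pA t v)| ≤ T * max C 0 * (bad Y).ncard := by
    intro v _
    rw [NN_split K hfin _ (fun t : Tile => t)]
    have h4 : ∀ t ∈ Finset.univ, |NN X Y K (fun t' => Psi K DA pA t' v ∧ t' = t)| ≤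
        max C 0 * (bad Y).ncard := by
      intro t _
      by_cases ht : Psi K DA pA t v
      · have h5 : NN X Y K (fun t' => Psi K DA pA t' v ∧ t' = t) =
            NN X Y K (fun t' => t' = t) := by
          refine NN_congr K fun t' => ⟨fun h => h.2, fun h => ⟨?_, h⟩⟩
          rw [h]
          exact ht
        rw [h5]
        have h6 := hC X Y hX hfin t
        simp only [ite_eq_ind] at h6
        exact le_trans h6 (mul_le_mul_of_nonneg_right (le_max_left _ _) hb)
      · have h5 : NN X Y K (fun t' => Psi K DA pA t' v ∧ t' = t) = 0 := by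
          refine NN_false K fun t' h => ht ?_
          rw [← h.2]
          exact h.1
        rw [h5, abs_zero]
        positivity
    refine (Finset.abs_sum_le_sum_abs _ _).trans ((Finset.sum_le_card_nsmul _ _ _ h4).trans ?_)
    rw [nsmul_eq_mul, Finset.card_univ, mul_assoc]
  have h4 : |∑ v ∈ H, NN X Y K (fun t => Psi K DA pA t v)| ≤
      H.card * (T * max C 0 * (bad Y).ncard) := by
    refine (Finset.abs_sum_le_sum_abs _ _).trans ((Finset.sum_le_card_nsmul _ _ _ h3).trans ?_)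
    rw [nsmul_eq_mul]
  rw [h2, ← hBc] at key
  change |DD (fun u => ind (∀ i ∈ DA, Y (i + u) = pA i))
    (fun u => ind (∀ i ∈ DA, X (i + u) = pA i))| ≤ _
  have h5 := abs_add_le (DD (fun u => ind (∀ i ∈ DA, Y (i + u) = pA i))
    (fun u => ind (∀ i ∈ DA, X (i + u) = pA i)) - ∑ v ∈ H, NN X Y K (fun t => Psi K DA pA t v))
    (∑ v ∈ H, NN X Y K (fun t => Psi K DA pA t v))
  rw [sub_add_cancel] at h5
  refine h5.trans ((add_le_add key h4).trans (le_of_eq ?_))
  ring

end Pool.Agent.TH793.SB
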