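import Pool.Agent.TH793.SB.Asm
import Pool.Agent.TH793.SB.SBCp
import Pool.Agent.TH241.J576
import Pool.Agent.TH241.J587
import Pool.Agent.TH365.SB.J577
import Pool.Agent.TH365.SB.J578
import Pool.Agent.TH365.SB.J580
import Pool.Agent.TH365.SB.J581
import Pool.Agent.TH365.SB.J586
import Pool.Agent.TH49.J579
import Pool.Agent.TH49.J585
import Pool.Agent.TH584.SB.Nets
import Pool.Agent.TH484.J583
import Pool.Agent.TH989.J584
import Pool.Agent.TH511.J588
import Pool.Agent.TH511.J589
import Pool.Agent.TH511.J590

set_option autoImplicit false

/-! # All modules together -/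

namespace Pool.Agent.TH793.SB

theorem boxThm : BoxThm := Pool.Agent.TH365.SB.boxThm Pool.Agent.TH241.J576.labelThm

theorem orgUnique : OrgUnique := Pool.Agent.TH365.SB.orgUnique

theorem validOrg : ValidOrg := fun X hX K => Pool.Agent.TH365.SB.valid_org boxThm X hX K

theorem mult : Mult := Pool.Agent.TH49.J579.mult orgUnique

theorem conflict : Conflict := Pool.Agent.TH365.SB.conflict boxThm orgUnique

theorem unres : Unres := Pool.Agent.TH365.SB.unres boxThm

theorem one : OneSided :=
  oneSided validOrg orgUnique mult conflict unres Pool.Agent.TH584.SB.cover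
    Pool.Agent.TH584.SB.nets

theorem totalLower : TotalLower := Pool.Agent.TH989.J584.totalLower boxThm orgUnique

theorem rigid : Rigid := Pool.Agent.TH484.J583.rigid boxThm orgUnique

theorem tileB : TileBound := tileBound one totalLower rigid boxThm orgUnique

theorem determ : Determ := Pool.Agent.TH49.J585.determ orgUnique

/-- the Strict Boundary Condition holds -/
theorem sbcMain : SBC := sbc tileB determ boxThm orgUnique

theorem noPer : NoPer := Pool.Agent.TH365.SB.noPer boxThm orgUnique

theorem exist : Exist := Pool.Agent.TH241.J587.exist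

theorem countDiff : CountDiff := Pool.Agent.TH511.J590.countDiff sbcMain

theorem uniqMeas : UniqMeas := Pool.Agent.TH511.J589.uniqMeas

theorem invMeas : InvMeas := Pool.Agent.TH511.J588.invMeas

end Pool.Agent.TH793.SB
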