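import Pool.Agent.TH793.SB.One

set_option autoImplicit false

/-! # Two-sided bounds for all tiles -/

namespace Pool.Agent.TH793.SB

open scoped Classical

/-- indicator -/
noncomputable def ind (p : Prop) : ℝ := if p then 1 else 0

lemma ind_congr {p q : Prop} (h : p ↔ q) : ind p = ind q := by
  unfold ind
  simp only [h]

lemma ind_nonneg (p : Prop) : 0 ≤ ind p := by unfold ind; split_ifs <;> norm_num

lemma ind_le_one (p : Prop) : ind p ≤ 1 := by unfold ind; split_ifs <;> norm_num

lemma abs_ind_sub (p q : Prop) : |ind p - ind q| ≤ 1 := by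
  unfold ind; split_ifs <;> norm_num

/-- total difference -/
noncomputable def DD (f g : Site → ℝ) : ℝ := ∑ᶠ u, (f u - g u)

lemma DD_eq_sum {f g : Site → ℝ} (V : Finset Site) (h : ∀ u ∉ V, f u = g u) :
    DD f g = ∑ u ∈ V, (f u - g u) := by
  refine finsum_eq_sum_of_support_subset _ fun u hu => ?_
  by_contra hn
  apply hu
  beta_reduce
  rw [h u hn, sub_self]

lemma DD_shift (f g : Site → ℝ) (s : Site) : DD (fun u => f (u + s)) (fun u => g (u + s)) =
    DD f g :=
  finsum_comp_equiv (Equiv.addRight s) (f := fun u => f u - g u)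

/-- comparison of two observables that agree away from the bad sites -/
lemma DD_near {f g f' g' : Site → ℝ} (V : Finset Site) (hf : ∀ u ∉ V, f u = g u)
    (hf' : ∀ u ∉ V, f' u = g' u) (hg : ∀ u, g u = g' u) (B : Finset Site) (R : ℕ) (M : ℝ)
    (hM : 0 ≤ M)
    (hB : ∀ u, (∀ b ∈ B, b ∉ ball u R) → f u = f' u) (hb : ∀ u, |f u - f' u| ≤ M) :
    |DD f g - DD f' g'| ≤ M * (2 * R + 1) ^ 3 * B.card := by
  rw [DD_eq_sum V hf, DD_eq_sum V hf', ← Finset.sum_sub_distrib]
  have h1 : ∀ u ∈ V, |f u - g u - (f' u - g' u)| ≤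
      M * (if u ∈ V.filter (fun u => ∃ b ∈ B, b ∈ ball u R) then (1 : ℝ) else 0) := by
    intro u hu
    rw [hg u, show f u - g' u - (f' u - g' u) = f u - f' u by ring]
    split_ifs with h
    · rw [mul_one]
      exact hb u
    · rw [mul_zero, hB u, sub_self, abs_zero]
      intro b hb hbu
      exact h (Finset.mem_filter.2 ⟨hu, b, hb, hbu⟩)
  refine (Finset.abs_sum_le_sum_abs _ _).trans ((Finset.sum_le_sum h1).trans ?_)
  rw [← Finset.mul_sum, mul_assoc]
  refine mul_le_mul_of_nonneg_left ?_ hM
  rw [← Finset.sum_filter, Finset.sum_const, nsmul_eq_mul, mul_one]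
  have h2 := card_near B (V.filter (fun u => ∃ b ∈ B, b ∈ ball u R)) R
    (fun u hu => (Finset.mem_filter.1 hu).2)
  have h3 : (V.filter (fun u => u ∈ V.filter (fun u => ∃ b ∈ B, b ∈ ball u R))).card ≤
      (V.filter (fun u => ∃ b ∈ B, b ∈ ball u R)).card := by
    apply Finset.card_le_card
    intro u hu
    exact (Finset.mem_filter.1 hu).2
  exact_mod_cast h3.trans h2

/-- the region outside of which `X` and `Y` agree -/
lemma exists_region {X Y : Cfg} (hfin : {u | Y u ≠ X u}.Finite) (r : ℕ) :
    ∃ V : Finset Site, ∀ u ∉ V, Agree X Y (ball u r) := by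
  obtain ⟨R, hR⟩ := exists_radius hfin
  refine ⟨fball (R + 1 + r), fun u hu => ?_⟩
  refine agree_far (p := 0) (R := R) (fun u hu => hR u hu) fun v hv hv2 => hu ?_
  rw [mem_fball]
  intro i
  have h1 := hv i
  have h2 := hv2 i
  rw [abs_le] at h1 h2 ⊢
  constructor <;> linarith [h1.1, h1.2, h2.1, h2.2]

lemma Agree.self {X Y : Cfg} {u : Site} {r : ℤ} (hr : 0 ≤ r) (h : Agree X Y (ball u r)) :
    X u = Y u := (h u (fun i => by simpa using hr)).1

/-- count of level `K` sites whose tile satisfies `P` -/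
noncomputable def NN (X Y : Cfg) (K : ℕ) (P : Tile → Prop) : ℝ :=
  DD (fun u => ind (u ∈ PK Y K ∧ P (Y u))) (fun u => ind (u ∈ PK X K ∧ P (X u)))

lemma ball_pow_agree {X Y : Cfg} {u : Site} {K : ℕ} (h : Agree X Y (ball u ((2 ^ K : ℕ) : ℤ))) :
    Agree X Y (ball u (2 ^ K)) := by
  push_cast at h
  exact h

lemma NN_eq_sum {X Y : Cfg} (K : ℕ) {V : Finset Site}
    (hV : ∀ u ∉ V, Agree X Y (ball u ((2 ^ K : ℕ) : ℤ))) (P : Tile → Prop) :
    NN X Y K P = ∑ u ∈ V, (ind (u ∈ PK Y K ∧ P (Y u)) - ind (u ∈ PK X K ∧ P (X u))) := by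
  refine DD_eq_sum V fun u hu => ?_
  have h := hV u hu
  have h1 := mem_PK_congr (ball_pow_agree h)
  have h2 := h.self (by positivity)
  rw [h2, propext h1]

lemma ind_split {ι : Type} [Fintype ι] (q : Prop) (P : Tile → Prop) (f : Tile → ι) (t : Tile) :
    ind (q ∧ P t) = ∑ j : ι, ind (q ∧ (P t ∧ f t = j)) := by
  rw [Finset.sum_eq_single_of_mem (f t) (Finset.mem_univ _)]
  · exact ind_congr (by tauto)
  · intro j _ hj
    unfold ind
    rw [if_neg]
    rintro ⟨-, -, h⟩
    exact hj h.symm

/-- splitting a count along a finite partition -/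
lemma NN_split {X Y : Cfg} (K : ℕ) (hfin : {u | Y u ≠ X u}.Finite) (P : Tile → Prop)
    {ι : Type} [Fintype ι] (f : Tile → ι) :
    NN X Y K P = ∑ j : ι, NN X Y K (fun t => P t ∧ f t = j) := by
  obtain ⟨V, hV⟩ := exists_region hfin (2 ^ K)
  rw [NN_eq_sum K hV]
  have h1 : ∀ j : ι, NN X Y K (fun t => P t ∧ f t = j) = _ := fun j => NN_eq_sum K hV _
  simp only [h1]
  rw [Finset.sum_comm]
  refine Finset.sum_congr rfl fun u _ => ?_
  rw [Finset.sum_sub_distrib, ind_split _ P f, ind_split _ P f]

lemma NN_congr {X Y : Cfg} (K : ℕ) {P Q : Tile → Prop} (h : ∀ t, P t ↔ Q t) :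
    NN X Y K P = NN X Y K Q := by
  have : P = Q := funext fun t => propext (h t)
  rw [this]

lemma NN_false {X Y : Cfg} (K : ℕ) {P : Tile → Prop} (h : ∀ t, ¬ P t) : NN X Y K P = 0 := by
  unfold NN DD
  have : ∀ u, ind (u ∈ PK Y K ∧ P (Y u)) - ind (u ∈ PK X K ∧ P (X u)) = 0 := by
    intro u
    unfold ind
    rw [if_neg fun h2 => h _ h2.2, if_neg fun h2 => h _ h2.2, sub_self]
  simp only [this, finsum_zero]

lemma NN_same {X : Cfg} (K : ℕ) (P : Tile → Prop) : NN X X K P = 0 := by
  unfold NN DD
  simp only [sub_self, finsum_zero]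

/-! ## lines -/

/-- letters along a line of passing tiles -/
lemma line {Y : Cfg} {i : Fin 3} {u : Site} {n : ℕ} (hn : 0 < n)
    (hg : ∀ m < n, Good Y (u + st i m))
    (hp : ∀ m : ℕ, 0 < m → m < n → lab (Y (u + st i m)) = el i) :
    In i (Y (u + st i n)) = Out i (Y u) + n := by
  induction n with
  | zero => exact absurd hn (lt_irrefl 0)
  | succ n ih =>
    have hst : u + st i (n : ℕ) + st i 1 = u + st i ((n + 1 : ℕ) : ℤ) := by
      funext j
      simp only [Pi.add_apply, st_apply]
      split_ifs <;> push_cast <;> ring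
    have h1 := hg n (Nat.lt_succ_self n) i
    rw [hst] at h1
    rw [h1]
    rcases Nat.eq_zero_or_pos n with rfl | hpos
    · have : u + st i ((0 : ℕ) : ℤ) = u := by
        funext j
        simp only [Pi.add_apply, st_apply]
        split_ifs <;> simp
      rw [this]
      push_cast
      ring
    · have h2 := ih hpos (fun m hm => hg m (hm.trans (Nat.lt_succ_self n)))
        (fun m h0 hm => hp m h0 (hm.trans (Nat.lt_succ_self n)))
      rw [pass (hp n hpos (Nat.lt_succ_self n)), h2]
      push_cast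
      ring

/-- levels along a lattice line -/
lemma lev_line {c : Site} {K : ℕ} {u : Site} {i : Fin 3} {m : ℤ} (hu : InP c K u)
    (hm : ¬ (2 : ℤ) ^ K ∣ m) : ∃ k < K, Lev c k (el i) (u + st i m) := by
  have h1 : ¬ InP c K (u + st i m) := by
    intro h
    have h2 := h i
    have h3 := hu i
    simp only [Pi.add_apply, st_apply, if_true] at h2
    apply hm
    have := dvd_sub h2 h3
    rwa [show u i + m - c i - (u i - c i) = m by ring] at this
  obtain ⟨k, hk, d, hd, hl⟩ := exists_lev h1
  have hfalse : ∀ l, l ≠ i → d l = false := by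
    intro l hl'
    by_contra h
    have h2 : d l = true := by
      cases hdl : d l
      · exact absurd hdl h
      · rfl
    apply (hl.2 l).1 h2
    simp only [Pi.add_apply, st_apply, if_neg hl', add_zero]
    exact (pow_dvd_pow 2 hk).trans (hu l)
  have htrue : d i = true := by
    cases hdi : d i
    · exfalso
      apply hd
      funext l
      by_cases h : l = i
      · rw [h, hdi]; rfl
      · rw [hfalse l h]; rfl
    · rfl
  have : d = el i := by
    funext l
    unfold el
    by_cases h : l = i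
    · rw [h, htrue]; simp
    · rw [hfalse l h]; simp [h]
  rw [this] at hl
  exact ⟨k, hk, hl⟩

lemma not_dvd_of_lt {K : ℕ} {m : ℤ} (h0 : 0 < m) (hm : m < 2 ^ K) : ¬ (2 : ℤ) ^ K ∣ m :=
  fun h => absurd (Int.le_of_dvd h0 h) (not_le.2 hm)

lemma el_ne (i : Fin 3) : el i ≠ zl := by
  intro h
  have := congrFun h i
  simp [el, zl] at this

/-- consecutive lattice sites are linked -/
lemma link {Y : Cfg} {c : Site} {K : ℕ} {u : Site} {i : Fin 3} {S : Set Site}
    (hf : Free Y S) (ho : Org Y S c K) (hu : InP c K u)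
    (hS : ∀ m : ℤ, 0 ≤ m → m < 2 ^ K → u + st i m ∈ S) :
    In i (Y (u + st i (2 ^ K))) = Out i (Y u) + 2 ^ K := by
  have h := line (Y := Y) (i := i) (u := u) (n := 2 ^ K) (by positivity)
    (fun m hm => hf _ (hS m (by positivity) (by exact_mod_cast hm)))
    (fun m h0 hm => by
      have hm' : (m : ℤ) < 2 ^ K := by exact_mod_cast hm
      obtain ⟨k, hk, hl⟩ := lev_line (i := i) hu (not_dvd_of_lt (by exact_mod_cast h0) hm')
      exact (ho k hk _ (el_ne i) _ (hS m (by positivity) hm') hl).1)
  push_cast at h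
  exact h

/-- local lattice sites in a free ball -/
lemma PK_of_free (hU : OrgUnique) {Y : Cfg} {K : ℕ} {c w : Site} {S : Set Site}
    (hf : Free Y S) (ho : Org Y S c K) (hw : ball w (2 ^ K) ⊆ S) : w ∈ PK Y K ↔ InP c K w := by
  constructor
  · rintro ⟨c', hf', ho', hi⟩
    have h2 := ho.mono hw le_rfl
    rw [ball_eq_cube, cube_eq_box] at ho' h2
    have h1 := hU Y K _ _ (fun i => by
      have : (0 : ℤ) < 2 ^ K := by positivity
      linarith) c' c ho' h2
    exact (InP_congr h1 le_rfl).1 hi
  · intro h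
    exact ⟨c, hf.mono hw, ho.mono hw le_rfl, h⟩

lemma free_org (hB : BoxThm) {Y : Cfg} {K : ℕ} {u : Site} {R : ℤ} (hR : 2 ^ K ≤ R)
    (hf : Free Y (ball u R)) : ∃ c, Org Y (ball u R) c K := by
  have hp : (0 : ℤ) < 2 ^ K := by positivity
  rw [ball_eq_cube, cube_eq_box] at hf ⊢
  exact hB Y K _ _ (fun i => by linarith) hf

lemma InP_st {c : Site} {K : ℕ} {u : Site} {i : Fin 3} :
    InP c K (u + st i (2 ^ K)) ↔ InP c K u := by
  unfold InP
  refine forall_congr' fun j => ?_
  simp only [Pi.add_apply, st_apply]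
  split_ifs
  · rw [show u j + 2 ^ K - c j = (u j - c j) + 2 ^ K by ring]
    exact dvd_add_self_right
  · rw [add_zero]

lemma link_iff (hB : BoxThm) (hU : OrgUnique) {Z : Cfg} {K : ℕ} {u : Site} {i : Fin 3}
    {a : ZMod 127} (hf : Free Z (ball u (3 * 2 ^ K))) :
    (u + st i (2 ^ K) ∈ PK Z K ∧ In i (Z (u + st i (2 ^ K))) = a + 2 ^ K) ↔
      (u ∈ PK Z K ∧ Out i (Z u) = a) := by
  have hp : (0 : ℤ) < 2 ^ K := by positivity
  obtain ⟨c, ho⟩ := free_org hB (by linarith) hf
  have h1 : ball (u + st i (2 ^ K)) (2 ^ K) ⊆ ball u (3 * 2 ^ K) := by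
    intro v hv j
    have := hv j
    simp only [Pi.add_apply, st_apply] at this
    rw [abs_le] at this ⊢
    split_ifs at this <;> constructor <;> linarith [this.1, this.2]
  have h2 : ball u (2 ^ K) ⊆ ball u (3 * 2 ^ K) := by
    intro v hv j
    have := hv j
    linarith
  rw [PK_of_free hU hf ho h1, PK_of_free hU hf ho h2, InP_st]
  refine and_congr_right fun hi => ?_
  rw [link hf ho hi (fun m h0 hm j => by
    simp only [Pi.add_apply, st_apply]
    rw [abs_le]
    split_ifs <;> constructor <;> linarith)]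
  exact add_left_inj _

lemma NN_link (hB : BoxThm) (hU : OrgUnique) (K : ℕ) {X Y : Cfg} (hX : Valid X)
    (hfin : {u | Y u ≠ X u}.Finite) (i : Fin 3) (a : ZMod 127) :
    |NN X Y K (fun t => In i t = a + 2 ^ K) - NN X Y K (fun t => Out i t = a)| ≤
      (2 * ((3 * 2 ^ K : ℕ) : ℝ) + 1) ^ 3 * (bad Y).ncard := by
  obtain ⟨V, hV⟩ := exists_region hfin (3 * 2 ^ K)
  have hp : (0 : ℤ) < 2 ^ K := by positivity
  set B : Finset Site := (bad_finite hX hfin).toFinset with hBd
  have hBm : ∀ u, u ∈ B ↔ u ∈ bad Y := fun u => Set.Finite.mem_toFinset _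
  have hBc : (bad Y).ncard = B.card := Set.ncard_eq_toFinset_card _ _
  have hsub : ∀ u : Site, ball (u + st i (2 ^ K)) (2 ^ K) ⊆ ball u ((3 * 2 ^ K : ℕ) : ℤ) := by
    intro u v hv j
    have := hv j
    simp only [Pi.add_apply, st_apply] at this
    push_cast
    rw [abs_le] at this ⊢
    split_ifs at this <;> constructor <;> linarith [this.1, this.2]
  have hsub2 : ∀ u : Site, ball u (2 ^ K) ⊆ ball u ((3 * 2 ^ K : ℕ) : ℤ) := by
    intro u v hv j
    have := hv j
    push_cast
    linarith
  have key := DD_near (f := fun u => ind (u + st i (2 ^ K) ∈ PK Y K ∧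
      In i (Y (u + st i (2 ^ K))) = a + 2 ^ K))
    (g := fun u => ind (u + st i (2 ^ K) ∈ PK X K ∧
      In i (X (u + st i (2 ^ K))) = a + 2 ^ K))
    (f' := fun u => ind (u ∈ PK Y K ∧ Out i (Y u) = a))
    (g' := fun u => ind (u ∈ PK X K ∧ Out i (X u) = a)) V ?_ ?_ ?_ B (3 * 2 ^ K) 1
    zero_le_one ?_ ?_
  · rw [one_mul, ← hBc] at key
    have e1 : DD (fun u => ind (u + st i (2 ^ K) ∈ PK Y K ∧
        In i (Y (u + st i (2 ^ K))) = a + 2 ^ K))
        (fun u => ind (u + st i (2 ^ K) ∈ PK X K ∧
        In i (X (u + st i (2 ^ K))) = a + 2 ^ K)) = NN X Y K (fun t => In i t = a + 2 ^ K) :=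
      DD_shift (fun u => ind (u ∈ PK Y K ∧ In i (Y u) = a + 2 ^ K))
        (fun u => ind (u ∈ PK X K ∧ In i (X u) = a + 2 ^ K)) (st i (2 ^ K))
    rw [e1] at key
    exact key
  · intro u hu
    have h1 := (hV u hu).mono (hsub u)
    have h2 := mem_PK_congr h1
    have h3 := h1.self hp.le
    rw [h3, propext h2]
  · intro u hu
    have h1 := (hV u hu).mono (hsub2 u)
    have h2 := mem_PK_congr h1
    have h3 := h1.self hp.le
    rw [h3, propext h2]
  · intro u
    exact ind_congr (link_iff hB hU fun v _ => hX v)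
  · intro u hu
    refine ind_congr (link_iff hB hU fun v hv => ?_)
    by_contra hbad
    refine hu v ((hBm v).2 hbad) ?_
    push_cast
    exact hv
  · intro u
    exact abs_ind_sub _ _

lemma ite_eq_ind (p : Prop) [Decidable p] : (if p then (1 : ℝ) else 0) = ind p := by
  unfold ind
  congr

/-- two-sided bound for the families -/
lemma fam_bound (h1 : OneSided) (h2 : TotalLower) (K : ℕ) : ∃ C : ℝ, 0 ≤ C ∧
    ∀ X Y : Cfg, Valid X → {u | Y u ≠ X u}.Finite → (bad Y).Nonempty → ∀ F : ST,
      |NN X Y K (fun t => fam t = F)| ≤ C * (bad Y).ncard := by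
  obtain ⟨C1, h1⟩ := h1 K
  obtain ⟨C2, h2⟩ := h2 K
  refine ⟨max C2 0 + 31 * max C1 0, by positivity, fun X Y hX hfin hne F => ?_⟩
  have hb : (0 : ℝ) ≤ ((bad Y).ncard : ℝ) := Nat.cast_nonneg _
  have hup : ∀ F, NN X Y K (fun t => fam t = F) ≤ max C1 0 * (bad Y).ncard := by
    intro F
    have := h1 X Y hX hfin hne F
    simp only [ite_eq_ind] at this
    exact le_trans this (mul_le_mul_of_nonneg_right (le_max_left _ _) hb)
  have htot : -(max C2 0 * (bad Y).ncard) ≤ NN X Y K (fun _ => True) := by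
    have := h2 X Y hX hfin
    unfold NN DD
    simp only [ite_eq_ind] at this
    simp only [and_true]
    exact le_trans (neg_le_neg (mul_le_mul_of_nonneg_right (le_max_left _ _) hb)) this
  have hsplit : NN X Y K (fun _ => True) = ∑ F' : ST, NN X Y K (fun t => fam t = F') := by
    rw [NN_split K hfin _ fam]
    refine Finset.sum_congr rfl fun F' _ => NN_congr K fun t => ?_
    simp
  have hlow : -((max C2 0 + 31 * max C1 0) * (bad Y).ncard) ≤ NN X Y K (fun t => fam t = F) := by
    rw [← Finset.add_sum_erase _ _ (Finset.mem_univ F)] at hsplit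
    have h3 : ∑ F' ∈ Finset.univ.erase F, NN X Y K (fun t => fam t = F') ≤
        31 * (max C1 0 * (bad Y).ncard) := by
      refine (Finset.sum_le_card_nsmul _ _ _ fun F' _ => hup F').trans ?_
      rw [nsmul_eq_mul]
      refine mul_le_mul_of_nonneg_right ?_ (by positivity)
      have h4 : (Finset.univ.erase F).card ≤ 31 := by
        refine (Finset.card_le_univ _).trans ?_
        decide
      exact_mod_cast h4
    nlinarith
  rw [abs_le]
  refine ⟨hlow, (hup F).trans ?_⟩
  have : (0 : ℝ) ≤ max C2 0 * (bad Y).ncard := by positivity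
  have h5 : (0 : ℝ) ≤ 30 * (max C1 0 * (bad Y).ncard) := by positivity
  nlinarith

/-- `In`-counts and `Out`-counts differ from tile counts by family counts -/
lemma letter_bound {X Y : Cfg} {K : ℕ} (hfin : {u | Y u ≠ X u}.Finite) {D : ℝ} (hD : 0 ≤ D)
    (hF : ∀ F : ST, |NN X Y K (fun t => fam t = F)| ≤ D) (i : Fin 3) (f : Tile → ZMod 127)
    (g : ST → ZMod 127) (hfg : ∀ t, lab t ≠ el i → f t = g (fam t))
    (hf : ∀ a, f (.inr (i, a)) = a) (a : ZMod 127) :
    |NN X Y K (fun t => f t = a) - NN X Y K (fun t => t = .inr (i, a))| ≤ 31 * D := by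
  have h1 : NN X Y K (fun t => f t = a) =
      ∑ F : ST, NN X Y K (fun t => f t = a ∧ fam t = F) := NN_split K hfin _ fam
  rw [← Finset.add_sum_erase _ _ (Finset.mem_univ (Sum.inr i : ST))] at h1
  have h2 : NN X Y K (fun t => f t = a ∧ fam t = .inr i) =
      NN X Y K (fun t => t = .inr (i, a)) := by
    refine NN_congr K fun t => ?_
    constructor
    · rintro ⟨h3, h4⟩
      rcases t with b | ⟨j, b⟩
      · simp [fam] at h4
      · simp only [fam, Sum.inr.injEq] at h4
        subst h4
        rw [hf] at h3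
        rw [h3]
    · rintro rfl
      exact ⟨hf a, rfl⟩
  rw [h1, h2, add_sub_cancel_left]
  have h3 : ∀ F ∈ Finset.univ.erase (Sum.inr i : ST),
      |NN X Y K (fun t => f t = a ∧ fam t = F)| ≤ D := by
    intro F hFi
    have hne : F ≠ Sum.inr i := (Finset.mem_erase.1 hFi).1
    by_cases hg : g F = a
    · have : NN X Y K (fun t => f t = a ∧ fam t = F) = NN X Y K (fun t => fam t = F) := by
        refine NN_congr K fun t => ⟨fun h => h.2, fun h => ⟨?_, h⟩⟩
        rw [hfg t (by rw [stop_iff, h]; exact hne), h, hg]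
      rw [this]
      exact hF F
    · have : NN X Y K (fun t => f t = a ∧ fam t = F) = 0 := by
        refine NN_false K fun t h => hg ?_
        rw [← h.2, ← hfg t (by rw [stop_iff, h.2]; exact hne), h.1]
      rw [this, abs_zero]
      exact hD
  refine (Finset.abs_sum_le_sum_abs _ _).trans ((Finset.sum_le_card_nsmul _ _ _ h3).trans ?_)
  rw [nsmul_eq_mul]
  refine mul_le_mul_of_nonneg_right ?_ hD
  have h4 : (Finset.univ.erase (Sum.inr i : ST)).card ≤ 31 := by
    refine (Finset.card_le_univ _).trans ?_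
    decide
  exact_mod_cast h4

/-- a function on `ZMod 127` with small increments and small sum is small -/
lemma zmod_bound {x : ZMod 127 → ℝ} {q : ZMod 127} (hq : q ≠ 0) {E D : ℝ}
    (h1 : ∀ a, |x (a + q) - x a| ≤ E) (h2 : |∑ a, x a| ≤ D) (a : ZMod 127) :
    |x a| ≤ D + 127 * E := by
  have : Fact (Nat.Prime 127) := ⟨by norm_num⟩
  have hE : 0 ≤ E := (abs_nonneg _).trans (h1 0)
  have hD : 0 ≤ D := (abs_nonneg _).trans h2
  have hstep : ∀ (n : ℕ) (a : ZMod 127), |x (a + n * q) - x a| ≤ n * E := by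
    intro n
    induction n with
    | zero => intro a; simp
    | succ n ih =>
      intro a
      have h3 := ih a
      have h4 := h1 (a + n * q)
      have h5 : a + ((n + 1 : ℕ) : ZMod 127) * q = a + n * q + q := by push_cast; ring
      rw [h5]
      have h6 := abs_add_le (x (a + n * q + q) - x (a + n * q)) (x (a + n * q) - x a)
      rw [sub_add_sub_cancel] at h6
      push_cast
      linarith
  have hall : ∀ b, |x a - x b| ≤ 127 * E := by
    intro b
    have h3 := hstep ((b - a) * q⁻¹).val a
    rw [ZMod.natCast_zmod_val, inv_mul_cancel_right₀ hq, add_sub_cancel] at h3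
    rw [abs_sub_comm]
    refine h3.trans (mul_le_mul_of_nonneg_right ?_ hE)
    have h4 := ZMod.val_lt ((b - a) * q⁻¹)
    exact_mod_cast h4.le
  have h3 : (127 : ℝ) * x a = ∑ b, x b + ∑ b, (x a - x b) := by
    rw [← Finset.sum_add_distrib]
    simp only [add_sub_cancel, Finset.sum_const, Finset.card_univ, ZMod.card, nsmul_eq_mul]
    norm_num
  have h4 : |∑ b, (x a - x b)| ≤ 127 * (127 * E) := by
    refine (Finset.abs_sum_le_sum_abs _ _).trans
      ((Finset.sum_le_card_nsmul _ _ _ fun b _ => hall b).trans ?_)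
    rw [nsmul_eq_mul, Finset.card_univ, ZMod.card]
    norm_num
  have h5 : |(127 : ℝ) * x a| ≤ D + 127 * (127 * E) := by
    rw [h3]
    exact (abs_add_le _ _).trans (add_le_add h2 h4)
  rw [abs_mul, abs_of_pos (by norm_num : (0 : ℝ) < 127)] at h5
  nlinarith [abs_nonneg (x a)]

lemma two_ne : (2 : ZMod 127) ≠ 0 := by decide

/-- **Two-sided bound for every tile.** -/
theorem tileBound (h1 : OneSided) (h2 : TotalLower) (h3 : Rigid) (hB : BoxThm) (hU : OrgUnique) :
    TileBound := by
  intro K
  obtain ⟨C3, hC3, hfam⟩ := fam_bound h1 h2 K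
  set E : ℝ := (2 * ((3 * 2 ^ K : ℕ) : ℝ) + 1) ^ 3 with hE
  have hE0 : 0 ≤ E := by positivity
  refine ⟨C3 + 127 * (62 * C3 + E), fun X Y hX hfin t => ?_⟩
  have hgoal : |NN X Y K (fun t' => t' = t)| ≤ (C3 + 127 * (62 * C3 + E)) * (bad Y).ncard := by
    rcases (bad Y).eq_empty_or_nonempty with he | hne
    · have hY : Valid Y := by
        intro u
        by_contra hu
        have : u ∈ bad Y := hu
        rw [he] at this
        exact this
      have : Y = X := h3 X Y hX hY hfin
      rw [this, NN_same, abs_zero]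
      positivity
    · have hF := hfam X Y hX hfin hne
      have hb : (0 : ℝ) ≤ ((bad Y).ncard : ℝ) := Nat.cast_nonneg _
      rcases t with b | ⟨i, a⟩
      · have : NN X Y K (fun t' => t' = .inl b) = NN X Y K (fun t => fam t = .inl b) := by
          refine NN_congr K fun t => ?_
          rcases t with b' | ⟨j, b'⟩
          · simp [fam]
          · simp [fam]
        rw [this]
        refine (hF _).trans (mul_le_mul_of_nonneg_right ?_ hb)
        nlinarith
      · have hq : (2 : ZMod 127) ^ K ≠ 0 := by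
          have : Fact (Nat.Prime 127) := ⟨by norm_num⟩
          exact pow_ne_zero _ two_ne
        have hDn : 0 ≤ C3 * (bad Y).ncard := by positivity
        have hIn := letter_bound hfin hDn hF i (In i) (fun F => (inS i F : ℕ))
          (fun t ht => In_fam ht) (fun a => by simp [In])
        have hOut := letter_bound hfin hDn hF i (Out i) (fun F => (outS i F : ℕ))
          (fun t ht => Out_fam ht) (fun a => by simp [Out])
        have h4 : ∀ a, |NN X Y K (fun t => t = .inr (i, a + 2 ^ K)) -
            NN X Y K (fun t => t = .inr (i, a))| ≤ (62 * C3 + E) * (bad Y).ncard := by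
          intro a
          have e1 := hIn (a + 2 ^ K)
          have e2 := hOut a
          have e3 := NN_link hB hU K hX hfin i a
          rw [abs_le] at e1 e2 e3 ⊢
          constructor <;> nlinarith [e1.1, e1.2, e2.1, e2.2, e3.1, e3.2]
        have h5 : |∑ a, NN X Y K (fun t => t = .inr (i, a))| ≤ C3 * (bad Y).ncard := by
          have e1 := NN_split (X := X) (Y := Y) K hfin (fun t => fam t = .inr i)
            (fun t : Tile => In i t)
          have e2 : ∀ a, NN X Y K (fun t => fam t = .inr i ∧ In i t = a) =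
              NN X Y K (fun t => t = .inr (i, a)) := by
            intro a
            refine NN_congr K fun t => ?_
            constructor
            · rintro ⟨h6, h7⟩
              rcases t with b | ⟨j, b⟩
              · simp [fam] at h6
              · simp only [fam, Sum.inr.injEq] at h6
                subst h6
                simp only [In, if_true] at h7
                rw [h7]
            · rintro rfl
              exact ⟨rfl, by simp [In]⟩
          simp only [e2] at e1
          rw [← e1]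
          exact hF _
        have h6 := zmod_bound hq h4 h5 a
        refine h6.trans (le_of_eq ?_)
        ring
  simp only [ite_eq_ind]
  exact hgoal

end Pool.Agent.TH793.SB
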