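import Pool.Agent.TH989.J591
import Pool.Agent.TH793.SB.TileB

set_option autoImplicit false

/-! # Assembly of the frozen statement S15791 -/

namespace Pool.Agent.TH793.SB

open Pool.Agent.TH989.J591 MeasureTheory
open scoped Classical

/-- forbidden pairs -/
abbrev FP : Type := {q : Fin 3 × Tile × Tile // In q.1 q.2.2 ≠ Out q.1 q.2.1 + 1}

/-- numbering of the forbidden pairs -/
noncomputable def fpe : Fin (Fintype.card FP) ≃ FP := (Fintype.equivFin FP).symm

/-- the forbidden patterns -/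
noncomputable def patt (j : Fin (Fintype.card FP)) : Finset Site × Conf :=
  ({0, st (fpe j).1.1 1}, fun v => if v = 0 then ee (fpe j).1.2.1 else ee (fpe j).1.2.2)

lemma st_ne (i : Fin 3) : st i 1 ≠ 0 := by
  intro h
  have := congrFun h i
  simp [st] at this

lemma occ_iff (j : Fin (Fintype.card FP)) (X : Conf) (a : Site) :
    (∀ i ∈ (patt j).1, X (i + a) = (patt j).2 i) ↔
      tl X a = (fpe j).1.2.1 ∧ tl X (a + st (fpe j).1.1 1) = (fpe j).1.2.2 := by
  simp only [patt, Finset.mem_insert, Finset.mem_singleton, forall_eq_or_imp, forall_eq, if_true,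
    if_neg (st_ne _), zero_add, tl, Equiv.symm_apply_eq, add_comm a]

lemma valid_iff (X : Conf) :
    (∀ j : Fin (Fintype.card FP), ∀ a : Site, ¬ ∀ i ∈ (patt j).1, X (i + a) = (patt j).2 i) ↔
      Valid (tl X) := by
  simp only [occ_iff]
  constructor
  · intro h u i
    by_contra hne
    have := h (fpe.symm ⟨(i, tl X u, tl X (u + st i 1)), hne⟩) u
    rw [Equiv.apply_symm_apply] at this
    exact this ⟨rfl, rfl⟩
  · intro h j a ⟨h1, h2⟩
    have h3 := h a (fpe j).1.1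
    rw [h1, h2] at h3
    exact (fpe j).2 h3

/-- the broken sites are at most as numerous as the occurrences of forbidden patterns -/
lemma bad_le {X Y : Conf} (hX : Valid (tl X)) (hf : {i | Y i ≠ X i}.Finite) :
    (bad (tl Y)).ncard ≤ Set.ncard {q : Fin (Fintype.card FP) × Site |
      ∀ i ∈ (patt q.1).1, Y (i + q.2) = (patt q.1).2 i} := by
  have hf' : {i | tl Y i ≠ tl X i}.Finite := by
    refine hf.subset fun i hi h => hi ?_
    exact tl_congr h
  have hb := bad_finite hX hf'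
  have hsub : {q : Fin (Fintype.card FP) × Site |
      ∀ i ∈ (patt q.1).1, Y (i + q.2) = (patt q.1).2 i} ⊆ Set.univ ×ˢ (bad (tl Y)) := by
    rintro ⟨j, a⟩ h
    refine ⟨Set.mem_univ _, fun hg => ?_⟩
    have h' := (occ_iff j Y a).1 h
    have h3 := hg (fpe j).1.1
    rw [h'.1, h'.2] at h3
    exact (fpe j).2 h3
  have hfin : {q : Fin (Fintype.card FP) × Site |
      ∀ i ∈ (patt q.1).1, Y (i + q.2) = (patt q.1).2 i}.Finite :=
    (Set.finite_univ.prod hb).subset hsub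
  have h1 : bad (tl Y) ⊆ Prod.snd '' {q : Fin (Fintype.card FP) × Site |
      ∀ i ∈ (patt q.1).1, Y (i + q.2) = (patt q.1).2 i} := by
    intro u hu
    have : ∃ i, In i (tl Y (u + st i 1)) ≠ Out i (tl Y u) + 1 := by
      by_contra h
      push Not at h
      exact hu h
    obtain ⟨i, hi⟩ := this
    refine ⟨(fpe.symm ⟨(i, tl Y u, tl Y (u + st i 1)), hi⟩, u), ?_, rfl⟩
    refine (occ_iff _ Y u).2 ?_
    rw [Equiv.apply_symm_apply]
    exact ⟨rfl, rfl⟩
  exact (Set.ncard_le_ncard h1 (hfin.image _)).trans (Set.ncard_image_le hfin)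

/-- difference of counts as a sum -/
lemma count_eq {P Q : Site → Prop} (V : Finset Site) (h : ∀ a ∉ V, (P a ↔ Q a)) :
    ((((Set.ncard {a : Site | P a ∧ ¬ Q a} : ℕ) : ℤ) -
      ((Set.ncard {a : Site | Q a ∧ ¬ P a} : ℕ) : ℤ) : ℤ) : ℝ) = DD (fun a => ind (P a))
        (fun a => ind (Q a)) := by
  rw [DD_eq_sum V fun a ha => ind_congr (h a ha)]
  have e1 : {a : Site | P a ∧ ¬ Q a} = ↑(V.filter fun a => P a ∧ ¬ Q a) := by
    ext a
    simp only [Set.mem_ofPred_eq, Finset.coe_filter]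
    constructor
    · intro ha
      refine ⟨?_, ha⟩
      by_contra hV
      exact ha.2 ((h a hV).1 ha.1)
    · exact fun ha => ha.2
  have e2 : {a : Site | Q a ∧ ¬ P a} = ↑(V.filter fun a => Q a ∧ ¬ P a) := by
    ext a
    simp only [Set.mem_ofPred_eq, Finset.coe_filter]
    constructor
    · intro ha
      refine ⟨?_, ha⟩
      by_contra hV
      exact ha.2 ((h a hV).2 ha.1)
    · exact fun ha => ha.2
  rw [e1, e2, Set.ncard_coe_finset, Set.ncard_coe_finset]
  have e3 : ∀ a, ind (P a) - ind (Q a) = ind (P a ∧ ¬ Q a) - ind (Q a ∧ ¬ P a) := by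
    intro a
    unfold ind
    by_cases hp : P a <;> by_cases hq : Q a <;> simp [hp, hq]
  simp only [e3]
  rw [Finset.sum_sub_distrib]
  have e4 : ∀ R : Site → Prop, ∑ a ∈ V, ind (R a) = ((V.filter R).card : ℝ) := by
    intro R
    unfold ind
    rw [← Finset.sum_filter, Finset.sum_const, nsmul_eq_mul, mul_one]
  rw [e4, e4]
  push_cast
  congr!

/-- **Assembly.** -/
theorem s15791_of (h1 : SBC) (h2 : NoPer) (h3 : Exist) (h4 : CountDiff) (h5 : UniqMeas)
    (h6 : InvMeas) :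
  ∃ d : ℕ, 2 ≤ d ∧ ∃ k m : ℕ, ∃ F : Fin m → Finset (Fin d → ℤ) × ((Fin d → ℤ) → Fin k),
    (∃ X : (Fin d → ℤ) → Fin k, ∀ j : Fin m, ∀ a : Fin d → ℤ,
        ¬ ∀ i ∈ (F j).1, X (i + a) = (F j).2 i) ∧
    (∀ X : (Fin d → ℤ) → Fin k,
        (∀ j : Fin m, ∀ a : Fin d → ℤ, ¬ ∀ i ∈ (F j).1, X (i + a) = (F j).2 i) →
        ∀ a : Fin d → ℤ, a ≠ 0 → (fun i => X (i - a)) ≠ X) ∧
    (∃! μ : MeasureTheory.Measure ((Fin d → ℤ) → Fin k),
        MeasureTheory.IsProbabilityMeasure μ ∧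
        μ {X : (Fin d → ℤ) → Fin k | ∀ j : Fin m, ∀ a : Fin d → ℤ,
            ¬ ∀ i ∈ (F j).1, X (i + a) = (F j).2 i}ᶜ = 0 ∧
        ∀ a : Fin d → ℤ,
          MeasureTheory.Measure.map (fun X : (Fin d → ℤ) → Fin k => fun i => X (i - a)) μ = μ) ∧
    ∀ DA : Finset (Fin d → ℤ), ∀ pA : (Fin d → ℤ) → Fin k, ∃ C : ℝ,
      ∀ X Y : (Fin d → ℤ) → Fin k,
        (∀ j : Fin m, ∀ a : Fin d → ℤ, ¬ ∀ i ∈ (F j).1, X (i + a) = (F j).2 i) →
        {i : Fin d → ℤ | Y i ≠ X i}.Finite →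
        |((((Set.ncard {a : Fin d → ℤ | (∀ i ∈ DA, Y (i + a) = pA i) ∧
                ¬ ∀ i ∈ DA, X (i + a) = pA i} : ℕ) : ℤ) -
            ((Set.ncard {a : Fin d → ℤ | (∀ i ∈ DA, X (i + a) = pA i) ∧
                ¬ ∀ i ∈ DA, Y (i + a) = pA i} : ℕ) : ℤ) : ℤ) : ℝ)|
          ≤ C * ((Set.ncard {q : Fin m × (Fin d → ℤ) |
                  ∀ i ∈ (F q.1).1, Y (i + q.2) = (F q.1).2 i} : ℕ) : ℝ) := by
  refine ⟨3, by norm_num, nT, Fintype.card FP, patt, ?_, ?_, ?_, ?_⟩
  · obtain ⟨X, hX⟩ := h3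
    refine ⟨fun u => ee (X u), (valid_iff (fun u => ee (X u))).2 ?_⟩
    have : tl (fun u => ee (X u)) = X := by
      funext u
      simp [tl]
    rw [this]
    exact hX
  · intro X hX a ha hXa
    apply ha
    apply h2 (tl X) ((valid_iff X).1 hX) a
    intro u
    exact tl_congr (X := fun i => X (i - a)) (Y := X) (congrFun hXa u)
  · have hset : {X : Conf | ∀ j : Fin (Fintype.card FP), ∀ a : Site,
        ¬ ∀ i ∈ (patt j).1, X (i + a) = (patt j).2 i} = Om := by
      ext X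
      exact valid_iff X
    rw [hset]
    obtain ⟨μ, hp, hμ, hinv⟩ := h6 3 nT Om (Om_nonempty h3) isClosed_Om fun X hX a => Om_shift hX a
    refine ⟨μ, ⟨hp, hμ, hinv⟩, ?_⟩
    rintro ν ⟨hνp, hν, hνinv⟩
    refine h5 3 nT Om (by norm_num) ?_ ν μ hνp hp hν hμ hνinv hinv
    intro DA pA
    obtain ⟨C, hC⟩ := h4 DA fun u => ee.symm (pA u)
    refine ⟨C, fun X hX X' hX' L hL => ?_⟩
    have := hC (tl X) (tl X') hX hX' L hL
    have e : ∀ Z : Conf, ∀ a : Site, (∀ i ∈ DA, tl Z (i + a) = ee.symm (pA i)) ↔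
        (∀ i ∈ DA, Z (i + a) = pA i) := by
      intro Z a
      simp only [tl, EmbeddingLike.apply_eq_iff_eq]
    simp only [e] at this
    convert this using 2
  · intro DA pA
    obtain ⟨C, hC⟩ := h1 DA fun u => ee.symm (pA u)
    refine ⟨max C 0, fun X Y hX hf => ?_⟩
    have hX' := (valid_iff X).1 hX
    have hf' : {i | tl Y i ≠ tl X i}.Finite := by
      refine hf.subset fun i hi h => hi ?_
      exact tl_congr h
    have hfin : (⋃ i ∈ DA, (fun a : Site => i + a) ⁻¹' {i | Y i ≠ X i}).Finite := by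
      refine Set.Finite.biUnion DA.finite_toSet fun i _ => hf.preimage ?_
      exact (add_right_injective i).injOn
    have hV : ∀ a ∉ hfin.toFinset, ((∀ i ∈ DA, Y (i + a) = pA i) ↔
        (∀ i ∈ DA, X (i + a) = pA i)) := by
      intro a ha
      rw [Set.Finite.mem_toFinset] at ha
      refine forall_congr' fun i => forall_congr' fun hi => ?_
      have : Y (i + a) = X (i + a) := by
        by_contra hne
        exact ha (Set.mem_biUnion hi hne)
      rw [this]
    rw [count_eq (P := fun a => ∀ i ∈ DA, Y (i + a) = pA i)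
      (Q := fun a => ∀ i ∈ DA, X (i + a) = pA i) _ hV]
    have h7 := hC (tl X) (tl Y) hX' hf'
    simp only [ite_eq_ind] at h7
    have e : ∀ Z : Conf, ∀ a : Site, (∀ i ∈ DA, tl Z (i + a) = ee.symm (pA i)) ↔
        (∀ i ∈ DA, Z (i + a) = pA i) := by
      intro Z a
      simp only [tl, EmbeddingLike.apply_eq_iff_eq]
    simp only [e] at h7
    refine le_trans h7 ?_
    have h8 : ((bad (tl Y)).ncard : ℝ) ≤ ((Set.ncard {q : Fin (Fintype.card FP) × Site |
      ∀ i ∈ (patt q.1).1, Y (i + q.2) = (patt q.1).2 i} : ℕ) : ℝ) := by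
      exact_mod_cast bad_le hX' hf
    calc C * ((bad (tl Y)).ncard : ℝ) ≤ max C 0 * ((bad (tl Y)).ncard : ℝ) :=
          mul_le_mul_of_nonneg_right (le_max_left _ _) (Nat.cast_nonneg _)
      _ ≤ _ := mul_le_mul_of_nonneg_left h8 (le_max_right _ _)

end Pool.Agent.TH793.SB
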