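import Pool.Agent.TH793.SB.Defs

set_option autoImplicit false

/-! # Basic lemmas -/

namespace Pool.Agent.TH793.SB

lemma Org.mono {Y : Cfg} {S T : Set Site} {c : Site} {K L : ℕ} (h : Org Y S c K) (hT : T ⊆ S)
    (hL : L ≤ K) : Org Y T c L :=
  fun k hk d hd u hu hl => h k (lt_of_lt_of_le hk hL) d hd u (hT hu) hl

lemma Free.mono {Y : Cfg} {S T : Set Site} (h : Free Y S) (hT : T ⊆ S) : Free Y T :=
  fun u hu => h u (hT hu)

lemma InP.mono {c : Site} {k K : ℕ} {u : Site} (h : InP c K u) (hk : k ≤ K) : InP c k u :=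
  fun i => (pow_dvd_pow 2 hk).trans (h i)

lemma InP_congr {c c' : Site} {K : ℕ} (h : ∀ i, (2 : ℤ) ^ K ∣ c i - c' i) {k : ℕ} (hk : k ≤ K)
    {u : Site} : InP c k u ↔ InP c' k u := by
  have h2 : ∀ i, (2 : ℤ) ^ k ∣ c i - c' i := fun i => (pow_dvd_pow 2 hk).trans (h i)
  constructor
  · intro hu i
    have := dvd_add (hu i) (h2 i)
    rwa [sub_add_sub_cancel] at this
  · intro hu i
    have := dvd_sub (hu i) (h2 i)
    rwa [show u i - c' i - (c i - c' i) = u i - c i by ring] at this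

lemma Lev_congr {c c' : Site} {K : ℕ} (h : ∀ i, (2 : ℤ) ^ K ∣ c i - c' i) {k : ℕ} (hk : k < K)
    {d : Lab} {u : Site} : Lev c k d u ↔ Lev c' k d u := by
  have h2 : ∀ i, (2 : ℤ) ^ (k + 1) ∣ c i - c' i := fun i => (pow_dvd_pow 2 hk).trans (h i)
  have h3 : ∀ i, (2 : ℤ) ^ (k + 1) ∣ u i - c i ↔ (2 : ℤ) ^ (k + 1) ∣ u i - c' i := by
    intro i
    constructor
    · intro hu
      have := dvd_add hu (h2 i)
      rwa [sub_add_sub_cancel] at this
    · intro hu
      have := dvd_sub hu (h2 i)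
      rwa [show u i - c' i - (c i - c' i) = u i - c i by ring] at this
  unfold Lev
  rw [InP_congr h hk.le]
  simp only [h3]

/-- congruence form of the level condition -/
lemma Lev_iff {c : Site} {k : ℕ} {d : Lab} {u : Site} :
    Lev c k d u ↔ ∀ i, (2 : ℤ) ^ (k + 1) ∣ u i - (c i + if d i then 2 ^ k else 0) := by
  unfold Lev InP
  constructor
  · rintro ⟨h1, h2⟩ i
    by_cases hd : d i = true
    · rw [if_pos hd]
      have h3 := (h2 i).1 hd
      obtain ⟨m, hm⟩ := h1 i
      have hodd : ¬ (2 : ℤ) ∣ m := by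
        rintro ⟨l, rfl⟩
        exact h3 ⟨l, by rw [hm]; ring⟩
      have h4 : m % 2 = 1 := by omega
      refine ⟨m / 2, ?_⟩
      have h5 : m = 2 * (m / 2) + 1 := by omega
      calc u i - (c i + 2 ^ k) = 2 ^ k * m - 2 ^ k := by rw [← hm]; ring
        _ = 2 ^ k * (2 * (m / 2) + 1) - 2 ^ k := by rw [← h5]
        _ = 2 ^ (k + 1) * (m / 2) := by ring
    · rw [if_neg hd, add_zero]
      by_contra h3
      exact hd ((h2 i).2 h3)
  · intro h
    refine ⟨fun i => ?_, fun i => ?_⟩
    · have h1 := h i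
      have h2 : (2 : ℤ) ^ k ∣ u i - (c i + if d i then 2 ^ k else 0) :=
        (pow_dvd_pow 2 (Nat.le_succ k)).trans h1
      split_ifs at h2
      · have := dvd_add h2 (dvd_refl ((2 : ℤ) ^ k))
        rwa [show u i - (c i + 2 ^ k) + 2 ^ k = u i - c i by ring] at this
      · rwa [add_zero] at h2
    · have h1 := h i
      by_cases hd : d i = true
      · simp only [hd, if_true, true_iff] at h1 ⊢
        intro h2
        have h3 := dvd_sub h2 h1
        rw [show u i - c i - (u i - (c i + 2 ^ k)) = 2 ^ k by ring] at h3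
        have h4 := Int.le_of_dvd (by positivity) h3
        rw [pow_succ] at h4
        have h5 : (0 : ℤ) < 2 ^ k := by positivity
        linarith
      · simp only [hd, if_false, add_zero, false_iff, not_not, Bool.false_eq_true] at h1 ⊢
        exact h1

lemma Lev.not_inP {c : Site} {k K : ℕ} {d : Lab} {u : Site} (h : Lev c k d u) (hd : d ≠ zl)
    (hk : k < K) : ¬ InP c K u := by
  intro h2
  apply hd
  funext i
  by_contra h3
  have h4 : d i = true := by
    cases hdi : d i
    · exact absurd hdi h3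
    · rfl
  exact (h.2 i).1 h4 ((pow_dvd_pow 2 hk).trans (h2 i))

lemma exists_lev {c : Site} {K : ℕ} {u : Site} (h : ¬ InP c K u) :
    ∃ k < K, ∃ d : Lab, d ≠ zl ∧ Lev c k d u := by
  classical
  induction K with
  | zero => exact absurd (fun i => by simp) h
  | succ K ih =>
    by_cases hK : InP c K u
    · refine ⟨K, Nat.lt_succ_self K, fun i => decide (¬ (2 : ℤ) ^ (K + 1) ∣ u i - c i), ?_, hK,
        fun i => by simp⟩
      intro hd
      apply h
      intro i
      have := congrFun hd i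
      simp only [zl, decide_eq_false_iff_not, not_not] at this
      exact this
    · obtain ⟨k, hk, hr⟩ := ih hK
      exact ⟨k, hk.trans (Nat.lt_succ_self K), hr⟩

lemma Lev_unique {c : Site} {k k' : ℕ} {d d' : Lab} {u : Site} (h : Lev c k d u)
    (h' : Lev c k' d' u) (hd : d ≠ zl) (hd' : d' ≠ zl) : k = k' ∧ d = d' := by
  have hk : k = k' := by
    rcases lt_trichotomy k k' with hlt | heq | hgt
    · exact absurd h'.1 (h.not_inP hd hlt)
    · exact heq
    · exact absurd h.1 (h'.not_inP hd' hgt)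
  subst hk
  refine ⟨rfl, ?_⟩
  funext i
  have := (h.2 i).trans (h'.2 i).symm
  cases h1 : d i <;> cases h2 : d' i <;> simp_all

lemma cube_eq_box (x : Site) (n : ℤ) : cube x n = box x (fun _ => n) := rfl

lemma ball_eq_cube (w : Site) (n : ℤ) : ball w n = cube (fun i => w i - n) (2 * n + 1) := by
  ext u
  simp only [ball, cube, Set.mem_ofPred_eq, abs_le]
  refine forall_congr' fun i => ?_
  constructor <;> rintro ⟨h1, h2⟩ <;> constructor <;> linarith

lemma cube_sub_ball {x u : Site} {n R : ℤ} (hu : u ∈ cube x n) (hR : n ≤ R + 1) :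
    cube x n ⊆ ball u R := by
  intro v hv i
  have h1 := hu i
  have h2 := hv i
  rw [abs_le]
  constructor <;> linarith [h1.1, h1.2, h2.1, h2.2]

/-- agreement around a set -/
def Agree (X Y : Cfg) (S : Set Site) : Prop :=
  ∀ u ∈ S, X u = Y u ∧ ∀ i, X (u + st i 1) = Y (u + st i 1)

lemma Agree.symm {X Y : Cfg} {S : Set Site} (h : Agree X Y S) : Agree Y X S :=
  fun u hu => ⟨(h u hu).1.symm, fun i => ((h u hu).2 i).symm⟩

lemma Agree.mono {X Y : Cfg} {S T : Set Site} (h : Agree X Y S) (hT : T ⊆ S) : Agree X Y T :=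
  fun u hu => h u (hT hu)

lemma Good_congr {X Y : Cfg} {S : Set Site} (h : Agree X Y S) {u : Site} (hu : u ∈ S) :
    Good X u ↔ Good Y u := by
  unfold Good
  obtain ⟨h1, h2⟩ := h u hu
  simp only [h1, h2]

lemma Free_congr {X Y : Cfg} {S : Set Site} (h : Agree X Y S) : Free X S ↔ Free Y S :=
  ⟨fun hf u hu => (Good_congr h hu).1 (hf u hu), fun hf u hu => (Good_congr h hu).2 (hf u hu)⟩

lemma Org_congr {X Y : Cfg} {S : Set Site} (h : Agree X Y S) {c : Site} {K : ℕ} :
    Org X S c K ↔ Org Y S c K := by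
  constructor
  · intro ho k hk d hd u hu hl
    rw [← (h u hu).1]
    exact ho k hk d hd u hu hl
  · intro ho k hk d hd u hu hl
    rw [(h u hu).1]
    exact ho k hk d hd u hu hl

lemma st_apply (i j : Fin 3) (n : ℤ) : st i n j = if j = i then n else 0 := rfl

lemma agree_far {X Y : Cfg} {p : Site} {R : ℤ} (h : ∀ u, Y u ≠ X u → u ∈ ball p R) {S : Set Site}
    (hS : ∀ u ∈ S, u ∉ ball p (R + 1)) : Agree X Y S := by
  intro u hu
  have h1 := hS u hu
  refine ⟨?_, fun i => ?_⟩
  · by_contra h2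
    apply h1
    intro j
    have := h u (Ne.symm h2) j
    linarith
  · by_contra h2
    apply h1
    intro j
    have := h _ (Ne.symm h2) j
    simp only [Pi.add_apply, st_apply] at this
    rw [abs_le] at this ⊢
    split_ifs at this <;> constructor <;> linarith [this.1, this.2]

lemma exists_subcube {x u : Site} {n m : ℤ} (hu : u ∈ cube x n) (hm : 0 < m) (hmn : m ≤ n) :
    ∃ y : Site, u ∈ cube y m ∧ cube y m ⊆ cube x n := by
  have key : ∀ i, ∃ y : ℤ, x i ≤ y ∧ y ≤ u i ∧ u i < y + m ∧ y + m ≤ x i + n := by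
    intro i
    have h1 := hu i
    rcases le_total (u i) (x i + n - m) with h | h
    · exact ⟨u i, h1.1, le_rfl, by linarith, by linarith⟩
    · exact ⟨x i + n - m, by linarith, h, by linarith [h1.2], by linarith⟩
  choose y hy using key
  refine ⟨y, fun i => ⟨(hy i).2.1, (hy i).2.2.1⟩, fun v hv i => ?_⟩
  have h1 := hv i
  have h2 := hy i
  constructor <;> linarith [h1.1, h1.2, h2.1, h2.2.2.2]

lemma SS_sub_LL {Y : Cfg} {k : ℕ} {d : Lab} {u : Site} (h : u ∈ SS Y k d) : u ∈ LL Y k := by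
  obtain ⟨x, c, hu, hf, ho, hl⟩ := h
  have hp : (0 : ℤ) < 2 ^ k := by positivity
  obtain ⟨y, h1, h2⟩ := exists_subcube hu hp (pow_le_pow_right₀ (by norm_num) (Nat.le_succ k))
  exact ⟨y, c, h1, hf.mono h2, ho.mono h2 (Nat.le_succ k), hl.1⟩

/-- label theorem for a site in `SS` -/
lemma SS_lab {Y : Cfg} {k : ℕ} {d : Lab} (hd : d ≠ zl) {u : Site} (h : u ∈ SS Y k d) :
    lab (Y u) = d ∧ okLev k (Y u) := by
  obtain ⟨x, c, hu, hf, ho, hl⟩ := h
  exact ho k (Nat.lt_succ_self k) d hd u hu hl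

/-- valid tilings are organised globally -/
def ValidOrg : Prop := ∀ X : Cfg, Valid X → ∀ K : ℕ, ∃ c, Org X Set.univ c K

lemma PK_valid (hU : OrgUnique) {X : Cfg} (hX : Valid X) {c : Site} {K : ℕ}
    (hc : Org X Set.univ c K) {u : Site} : u ∈ PK X K ↔ InP c K u := by
  constructor
  · rintro ⟨c', hf, ho, hi⟩
    rw [ball_eq_cube, cube_eq_box] at ho
    have h1 := hU X K _ _ (fun i => by
      have : (0 : ℤ) < 2 ^ K := by positivity
      linarith) c' c ho (hc.mono (Set.subset_univ _) le_rfl)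
    exact (InP_congr h1 le_rfl).1 hi
  · intro h
    exact ⟨c, fun v _ => hX v, hc.mono (Set.subset_univ _) le_rfl, h⟩

lemma SS_valid (hU : OrgUnique) {X : Cfg} (hX : Valid X) {c : Site} {K : ℕ}
    (hc : Org X Set.univ c K) {k : ℕ} (hk : k < K) {d : Lab} {u : Site} :
    u ∈ SS X k d ↔ Lev c k d u := by
  constructor
  · rintro ⟨x, c', hu, hf, ho, hl⟩
    rw [cube_eq_box] at ho
    have h1 := hU X (k + 1) _ _ (fun i => le_rfl) c' c ho
      (hc.mono (Set.subset_univ _) hk)
    exact (Lev_congr h1 (Nat.lt_succ_self k)).1 hl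
  · intro h
    refine ⟨u, c, fun i => ⟨le_rfl, ?_⟩, fun v _ => hX v, hc.mono (Set.subset_univ _) hk, h⟩
    have : (0 : ℤ) < 2 ^ (k + 1) := by positivity
    linarith

/-- a site of local level `< K` is not in `PK Y K` -/
lemma PK_SS (hU : OrgUnique) {Y : Cfg} {K k : ℕ} {d : Lab} (hd : d ≠ zl) {u : Site}
    (h1 : u ∈ PK Y K) (h2 : u ∈ SS Y k d) : K ≤ k := by
  by_contra hk
  push Not at hk
  obtain ⟨c, hf, ho, hi⟩ := h1
  obtain ⟨x, c', hu, hf', ho', hl⟩ := h2
  have hle : (2 : ℤ) ^ (k + 1) ≤ 2 ^ K := pow_le_pow_right₀ (by norm_num) hk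
  have hsub : cube x (2 ^ (k + 1)) ⊆ ball u (2 ^ K) := cube_sub_ball hu (by linarith)
  have ho2 := ho.mono hsub (Nat.succ_le_of_lt hk)
  rw [cube_eq_box] at ho' ho2
  have h3 := hU Y (k + 1) _ _ (fun i => le_rfl) c' c ho' ho2
  have h4 := (Lev_congr h3 (Nat.lt_succ_self k)).1 hl
  exact h4.not_inP hd hk hi

end Pool.Agent.TH793.SB
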