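import Pool.Agent.TH793.SB.Basic

set_option autoImplicit false

/-! # The one-sided bound -/

namespace Pool.Agent.TH793.SB

open scoped Classical

/-- big box as a finset -/
noncomputable def fball (R : ℤ) : Finset Site := Fintype.piFinset fun _ => Finset.Icc (-R) R

lemma mem_fball {R : ℤ} {u : Site} : u ∈ fball R ↔ u ∈ ball 0 R := by
  unfold fball ball
  simp only [Fintype.mem_piFinset, Finset.mem_Icc, Set.mem_ofPred_eq, abs_le, Pi.zero_apply,
    sub_zero]

lemma card_fball (R : ℕ) : (fball R).card = (2 * R + 1) ^ 3 := by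
  unfold fball
  rw [Fintype.card_piFinset]
  simp only [Int.card_Icc, Finset.prod_const, Finset.card_univ, Fintype.card_fin]
  congr 1
  omega

lemma card_near (B W : Finset Site) (R : ℕ) (h : ∀ u ∈ W, ∃ b ∈ B, b ∈ ball u R) :
    W.card ≤ (2 * R + 1) ^ 3 * B.card := by
  have h1 : W ⊆ B.biUnion fun b => (fball R).image fun v => b + v := by
    intro u hu
    obtain ⟨b, hb, hbu⟩ := h u hu
    refine Finset.mem_biUnion.2 ⟨b, hb, Finset.mem_image.2 ⟨u - b, ?_, by abel⟩⟩
    rw [mem_fball]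
    intro i
    have := hbu i
    simp only [Pi.sub_apply, Pi.zero_apply, sub_zero]
    rw [abs_sub_comm]
    exact this
  refine (Finset.card_le_card h1).trans ?_
  rw [mul_comm]
  refine Finset.card_biUnion_le_card_mul _ _ _ fun b _ => ?_
  refine Finset.card_image_le.trans ?_
  rw [card_fball]

lemma bad_finite {X Y : Cfg} (hX : Valid X) (h : {u | Y u ≠ X u}.Finite) : (bad Y).Finite := by
  have h1 : bad Y ⊆ {u | Y u ≠ X u} ∪ ⋃ i : Fin 3, (fun u => u + st i 1) ⁻¹' {u | Y u ≠ X u} := by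
    intro u hu
    by_contra h2
    simp only [Set.mem_union, Set.mem_iUnion, Set.mem_preimage, Set.mem_ofPred_eq, not_or,
      not_exists, not_not] at h2
    apply hu
    intro i
    have h3 := hX u i
    have h4 : Y u = X u := h2.1
    have h5 : Y (u + st i 1) = X (u + st i 1) := h2.2 i
    rw [h4, h5]
    exact h3
  refine Set.Finite.subset (h.union (Set.finite_iUnion fun i => h.preimage ?_)) h1
  exact (add_left_injective _).injOn

/-- conflicting sites -/
def CC (Y : Cfg) (k : ℕ) (d : Lab) : Set Site :=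
  {u | u ∈ SS Y k d ∧ ∃ u' ∈ SS Y k d, u ≠ u' ∧ ∀ i, |u i - u' i| < 2 ^ (k + 1)}

/-- sites unresolved below level `M` -/
def UU (Y : Cfg) (M : ℕ) : Set Site := {u | ∀ k < M, ∀ d : Lab, d ≠ zl → u ∉ SS Y k d}

/-- non-conflicting sites of level `k` are at most as numerous as in a valid tiling -/
lemma inj_count {Y : Cfg} {c : Site} {k : ℕ} {d : Lab} (V : Finset Site)
    (hV : ∀ u ∉ V, (u ∈ SS Y k d ↔ Lev c k d u)) :
    (V.filter (fun u => u ∈ SS Y k d ∧ u ∉ CC Y k d)).card ≤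
      (V.filter (fun u => Lev c k d u)).card := by
  set t : Site := fun i => c i + if d i then 2 ^ k else 0 with ht
  have hN : (0 : ℤ) < 2 ^ (k + 1) := by positivity
  set φ : Site → Site := fun u i => u i - (u i - t i) % 2 ^ (k + 1) with hφ
  have hlev : ∀ u, Lev c k d (φ u) := by
    intro u
    rw [Lev_iff]
    intro i
    have : φ u i - (c i + if d i then 2 ^ k else 0) =
        2 ^ (k + 1) * ((u i - t i) / 2 ^ (k + 1)) := by
      have h1 := Int.emod_add_mul_ediv (u i - t i) (2 ^ (k + 1))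
      simp only [hφ, ht] at h1 ⊢
      linarith
    rw [this]
    exact dvd_mul_right _ _
  have hle : ∀ u i, φ u i ≤ u i ∧ u i < φ u i + 2 ^ (k + 1) := by
    intro u i
    have h1 := Int.emod_nonneg (u i - t i) hN.ne'
    have h2 := Int.emod_lt_of_pos (u i - t i) hN
    simp only [hφ]
    constructor <;> linarith
  refine Finset.card_le_card_of_injOn φ ?_ ?_
  · intro u hu
    rw [Finset.mem_coe, Finset.mem_filter] at hu ⊢
    refine ⟨?_, hlev u⟩
    by_contra hn
    have h1 : φ u ∈ SS Y k d := (hV _ hn).2 (hlev u)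
    have hne : u ≠ φ u := fun h => hn (h ▸ hu.1)
    apply hu.2.2
    refine ⟨hu.2.1, φ u, h1, hne, fun i => ?_⟩
    have := hle u i
    rw [abs_lt]
    constructor <;> linarith [this.1, this.2]
  · intro u hu v hv huv
    rw [Finset.mem_coe, Finset.mem_filter] at hu hv
    by_contra hne
    apply hu.2.2
    refine ⟨hu.2.1, v, hv.2.1, hne, fun i => ?_⟩
    have h1 := hle u i
    have h2 := hle v i
    rw [← huv] at h2
    rw [abs_lt]
    constructor <;> linarith [h1.1, h1.2, h2.1, h2.2]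

lemma LL_succ {Y : Cfg} {M : ℕ} {u : Site} (h0 : u ∈ LL Y 0) (h1 : u ∉ LL Y M) :
    ∃ j < M, u ∈ LL Y j ∧ u ∉ LL Y (j + 1) := by
  induction M with
  | zero => exact absurd h0 h1
  | succ M ih =>
    by_cases h : u ∈ LL Y M
    · exact ⟨M, Nat.lt_succ_self M, h, h1⟩
    · obtain ⟨j, hj, hr⟩ := ih h
      exact ⟨j, hj.trans (Nat.lt_succ_self M), hr⟩

lemma LL_zero {Y : Cfg} {u : Site} (h : u ∉ bad Y) : u ∈ LL Y 0 := by
  have hg : Good Y u := by
    by_contra h2
    exact h h2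
  refine ⟨u, 0, fun i => ?_, fun v hv => ?_, fun k hk => absurd hk (Nat.not_lt_zero k), fun i => ?_⟩
  · simp
  · have : v = u := by
      funext i
      have := hv i
      simp only [pow_zero] at this
      omega
    rw [this]
    exact hg
  · simp

/-- number of unresolved sites -/
lemma unres_count (hMu : Mult) (hUn : Unres) {C1 C2 : ℕ}
    (hN : ∀ (B : Finset Site) (M : ℕ) (W : ℕ → Finset Site),
      (∀ j < M, ∀ u ∈ W j, ∃ b ∈ B, ∃ b' ∈ B, b ∈ ball u (10 * 2 ^ j) ∧
        b' ∈ ball u (10 * 2 ^ j) ∧ ∃ i, 2 ^ j ≤ 2 * |b i - b' i|) →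
      (∀ j < M, ∀ T ⊆ W j, (∀ u ∈ T, ∀ v ∈ T, ∀ i, 4 * |u i - v i| < 2 ^ j) → T.card ≤ 8) →
      ∑ j ∈ Finset.range M, (W j).card ≤ C1 * B.card)
    (hC : ∀ (j : ℕ) (p : Site) (S : Finset Site), (∀ u ∈ S, u ∈ ball p (((16 : ℕ) : ℤ) * 2 ^ j)) →
      (∀ T ⊆ S, (∀ u ∈ T, ∀ v ∈ T, ∀ i, 4 * |u i - v i| < 2 ^ j) → T.card ≤ 8) → S.card ≤ C2)
    (Y : Cfg) (B : Finset Site) (hB : ∀ u, u ∈ B ↔ u ∈ bad Y) (M : ℕ) :
    ((fball (16 * 2 ^ M)).filter (fun u => u ∈ UU Y M)).card ≤
      (1 + 9261 + C1) * B.card + C2 := by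
  set V := fball (16 * 2 ^ M) with hVdef
  set W : ℕ → Finset Site := fun j =>
    V.filter (fun u => u ∈ UU Y M ∧ u ∈ LL Y j ∧ u ∉ LL Y (j + 1)) with hW
  set W' : ℕ → Finset Site := fun j => if j = 0 then ∅ else if j < M then W j else ∅ with hW'
  have hWun : ∀ j < M, ∀ u ∈ W j, ∃ b ∈ bad Y, ∃ b' ∈ bad Y, b ∈ ball u (10 * 2 ^ j) ∧
      b' ∈ ball u (10 * 2 ^ j) ∧ (1 ≤ j → ∃ i, 2 ^ j ≤ 2 * |b i - b' i|) := by
    intro j hj u hu
    simp only [hW, Finset.mem_filter] at hu
    exact hUn Y j u hu.2.2.1 hu.2.2.2 fun k hk d hd =>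
      hu.2.1 k (lt_of_le_of_lt hk hj) d hd
  -- decomposition
  have hsub : V.filter (fun u => u ∈ UU Y M) ⊆
      ((B ∪ (if 0 < M then W 0 else ∅)) ∪ (Finset.range M).biUnion W') ∪
        V.filter (fun u => u ∈ LL Y M) := by
    intro u hu
    rw [Finset.mem_filter] at hu
    by_cases hb : u ∈ bad Y
    · exact Finset.mem_union_left _ (Finset.mem_union_left _ (Finset.mem_union_left _
        ((hB u).2 hb)))
    by_cases hM : u ∈ LL Y M
    · exact Finset.mem_union_right _ (Finset.mem_filter.2 ⟨hu.1, hM⟩)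
    obtain ⟨j, hj, h1, h2⟩ := LL_succ (LL_zero hb) hM
    have hWj : u ∈ W j := Finset.mem_filter.2 ⟨hu.1, hu.2, h1, h2⟩
    rcases Nat.eq_zero_or_pos j with rfl | hpos
    · refine Finset.mem_union_left _ (Finset.mem_union_left _ (Finset.mem_union_right _ ?_))
      rw [if_pos hj]
      exact hWj
    · refine Finset.mem_union_left _ (Finset.mem_union_right _
        (Finset.mem_biUnion.2 ⟨j, Finset.mem_range.2 hj, ?_⟩))
      simp only [hW']
      rw [if_neg hpos.ne', if_pos hj]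
      exact hWj
  have h0 : (if 0 < M then W 0 else ∅).card ≤ 9261 * B.card := by
    split_ifs with h
    · have := card_near B (W 0) 10 (fun u hu => by
        obtain ⟨b, hb, -, -, hbu, -⟩ := hWun 0 h u hu
        exact ⟨b, (hB b).2 hb, by simpa using hbu⟩)
      norm_num at this
      exact this
    · simp
  have h1 : ((Finset.range M).biUnion W').card ≤ C1 * B.card := by
    refine Finset.card_biUnion_le.trans (hN B M W' ?_ ?_)
    · intro j hj u hu
      simp only [hW'] at hu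
      split_ifs at hu with h2
      · simp at hu
      · obtain ⟨b, hb, b', hb', h3, h4, h5⟩ := hWun j hj u hu
        exact ⟨b, (hB b).2 hb, b', (hB b').2 hb', h3, h4, h5 (Nat.one_le_iff_ne_zero.2 h2)⟩
    · intro j hj T hT hd
      refine hMu Y j T (fun u hu => ?_) hd
      have := hT hu
      simp only [hW'] at this
      split_ifs at this with h2
      · simp at this
      · exact (Finset.mem_filter.1 this).2.2.1
  have h2 : (V.filter (fun u => u ∈ LL Y M)).card ≤ C2 := by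
    refine hC M 0 _ (fun u hu => ?_) (fun T hT hd => hMu Y M T (fun u hu => ?_) hd)
    · have := mem_fball.1 (Finset.mem_filter.1 hu).1
      simpa using this
    · exact (Finset.mem_filter.1 (hT hu)).2
  calc (V.filter (fun u => u ∈ UU Y M)).card
      ≤ (((B ∪ (if 0 < M then W 0 else ∅)) ∪ (Finset.range M).biUnion W') ∪
        V.filter (fun u => u ∈ LL Y M)).card := Finset.card_le_card hsub
    _ ≤ ((B ∪ (if 0 < M then W 0 else ∅)) ∪ (Finset.range M).biUnion W').card +
        (V.filter (fun u => u ∈ LL Y M)).card := Finset.card_union_le _ _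
    _ ≤ (B ∪ (if 0 < M then W 0 else ∅)).card + ((Finset.range M).biUnion W').card + C2 := by
        have := Finset.card_union_le (B ∪ (if 0 < M then W 0 else ∅)) ((Finset.range M).biUnion W')
        omega
    _ ≤ B.card + 9261 * B.card + C1 * B.card + C2 := by
        have := Finset.card_union_le B (if 0 < M then W 0 else ∅)
        omega
    _ = (1 + 9261 + C1) * B.card + C2 := by ring

/-- number of conflicting sites -/
lemma conflict_count (hMu : Mult) (hCo : Conflict) {C1 : ℕ}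
    (hN : ∀ (B : Finset Site) (M : ℕ) (W : ℕ → Finset Site),
      (∀ j < M, ∀ u ∈ W j, ∃ b ∈ B, ∃ b' ∈ B, b ∈ ball u (10 * 2 ^ j) ∧
        b' ∈ ball u (10 * 2 ^ j) ∧ ∃ i, 2 ^ j ≤ 2 * |b i - b' i|) →
      (∀ j < M, ∀ T ⊆ W j, (∀ u ∈ T, ∀ v ∈ T, ∀ i, 4 * |u i - v i| < 2 ^ j) → T.card ≤ 8) →
      ∑ j ∈ Finset.range M, (W j).card ≤ C1 * B.card)
    (Y : Cfg) (B : Finset Site) (hB : ∀ u, u ∈ B ↔ u ∈ bad Y) (V : Finset Site) (M : ℕ)
    {d : Lab} (hd : d ≠ zl) :
    ∑ k ∈ Finset.range M, (V.filter (fun u => u ∈ CC Y k d)).card ≤ C1 * B.card := by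
  refine hN B M _ ?_ ?_
  · intro j hj u hu
    obtain ⟨h1, u', h2, h3, h4⟩ := (Finset.mem_filter.1 hu).2
    obtain ⟨b, hb, b', hb', h5, h6, h7⟩ := hCo Y j d u u' hd h1 h2 h3 h4
    exact ⟨b, (hB b).2 hb, b', (hB b').2 hb', h5, h6, h7⟩
  · intro j hj T hT hdd
    refine hMu Y j T (fun u hu => ?_) hdd
    exact SS_sub_LL (Finset.mem_filter.1 (hT hu)).2.1

lemma fam_surj (F : ST) : ∃ t : Tile, fam t = F := by
  rcases F with a | j
  · exact ⟨.inl a, rfl⟩
  · exact ⟨.inr (j, 0), rfl⟩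

lemma labS_ne (F : ST) : labS F ≠ zl := by
  obtain ⟨t, rfl⟩ := fam_surj F
  rw [labS_fam]
  exact lab_ne t

lemma fam_of {F : ST} {t : Tile} {k : ℕ} (h : lab t = labS F) (hk : okLev k t) (hF : okF k F) :
    fam t = F := by
  obtain ⟨t', rfl⟩ := fam_surj F
  rw [labS_fam] at h
  rw [okF_fam] at hF
  exact fam_eq h hk hF

lemma exists_radius {S : Set Site} (hS : S.Finite) : ∃ R : ℕ, ∀ u ∈ S, u ∈ ball 0 R := by
  refine ⟨hS.toFinset.sup fun u => Finset.univ.sup fun i => (u i).natAbs, fun u hu i => ?_⟩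
  have h1 : (u i).natAbs ≤ Finset.univ.sup fun i => (u i).natAbs :=
    Finset.le_sup (f := fun i => (u i).natAbs) (Finset.mem_univ i)
  have h2 : (Finset.univ.sup fun i => (u i).natAbs) ≤
      hS.toFinset.sup fun u => Finset.univ.sup fun i => (u i).natAbs :=
    Finset.le_sup (f := fun u : Site => Finset.univ.sup fun i => (u i).natAbs)
      (hS.mem_toFinset.2 hu)
  have h3 := h1.trans h2
  simp only [Pi.zero_apply, sub_zero]
  rw [Int.abs_eq_natAbs]
  exact_mod_cast h3

lemma mem_PK_congr {X Y : Cfg} {K : ℕ} {u : Site} (h : Agree X Y (ball u (2 ^ K))) :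
    u ∈ PK X K ↔ u ∈ PK Y K := by
  unfold PK
  simp only [Set.mem_ofPred_eq, Free_congr h, Org_congr h]

lemma mem_SS_congr {X Y : Cfg} {k : ℕ} {d : Lab} {u : Site}
    (h : Agree X Y (ball u (2 ^ (k + 1)))) : u ∈ SS X k d ↔ u ∈ SS Y k d := by
  unfold SS
  simp only [Set.mem_ofPred_eq]
  refine exists_congr fun x => exists_congr fun c => ?_
  constructor
  · rintro ⟨h1, h2, h3, h4⟩
    have h5 := h.mono (cube_sub_ball h1 (by linarith : (2 : ℤ) ^ (k + 1) ≤ 2 ^ (k + 1) + 1))
    exact ⟨h1, (Free_congr h5).1 h2, (Org_congr h5).1 h3, h4⟩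
  · rintro ⟨h1, h2, h3, h4⟩
    have h5 := h.mono (cube_sub_ball h1 (by linarith : (2 : ℤ) ^ (k + 1) ≤ 2 ^ (k + 1) + 1))
    exact ⟨h1, (Free_congr h5).2 h2, (Org_congr h5).2 h3, h4⟩

/-- **One-sided bound.** -/
theorem oneSided (hV : ValidOrg) (hU : OrgUnique) (hMu : Mult) (hCo : Conflict) (hUn : Unres)
    (hCov : Cover) (hNe : Nets) : OneSided := by
  intro K
  obtain ⟨C1, hN⟩ := hNe
  obtain ⟨C2, hC⟩ := hCov 16
  refine ⟨((1 + 9261 + C1 + C2 + C1 : ℕ) : ℝ), fun X Y hX hfin hne F => ?_⟩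
  obtain ⟨R, hR⟩ := exists_radius hfin
  set M : ℕ := max K R with hM
  have hRM : (R : ℤ) ≤ 2 ^ M := by
    have h1 : R < 2 ^ M := lt_of_le_of_lt (le_max_right K R) Nat.lt_two_pow_self
    exact_mod_cast h1.le
  have hKM : K ≤ M := le_max_left _ _
  have hpM : (0 : ℤ) < 2 ^ M := by positivity
  have hKle : (2 : ℤ) ^ K ≤ 2 ^ M := pow_le_pow_right₀ (by norm_num) hKM
  have hdiff : ∀ u, Y u ≠ X u → u ∈ ball 0 (2 ^ M) := fun u hu i => (hR u hu i).trans hRM
  obtain ⟨c, hc⟩ := hV X hX M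
  set V := fball (16 * 2 ^ M) with hVd
  have hagree : ∀ u ∉ V, ∀ r : ℤ, r ≤ 2 * 2 ^ M → Agree X Y (ball u r) := by
    intro u hu r hr
    refine agree_far hdiff fun v hv hv2 => hu ?_
    rw [hVd, mem_fball]
    intro i
    have h1 := hv i
    have h2 := hv2 i
    rw [abs_le] at h1 h2 ⊢
    constructor <;> linarith [h1.1, h1.2, h2.1, h2.2]
  have hXY : ∀ u ∉ V, X u = Y u := by
    intro u hu
    have := hagree u hu 0 (by linarith) u (fun i => by simp)
    exact this.1
  have hPKo : ∀ u ∉ V, (u ∈ PK X K ↔ u ∈ PK Y K) := fun u hu =>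
    mem_PK_congr (hagree u hu _ (by linarith))
  have hSSo : ∀ k < M, ∀ d : Lab, d ≠ zl → ∀ u ∉ V, (u ∈ SS Y k d ↔ Lev c k d u) := by
    intro k hk d hd u hu
    rw [← SS_valid hU hX hc hk]
    refine (mem_SS_congr (hagree u hu _ ?_)).symm
    have : (2 : ℤ) ^ (k + 1) ≤ 2 ^ M := pow_le_pow_right₀ (by norm_num) hk
    linarith
  set B : Finset Site := (bad_finite hX hfin).toFinset with hBd
  have hB : ∀ u, u ∈ B ↔ u ∈ bad Y := fun u => Set.Finite.mem_toFinset _
  have hBc : (bad Y).ncard = B.card := Set.ncard_eq_toFinset_card _ _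
  have hB1 : 1 ≤ B.card := by
    obtain ⟨b, hb⟩ := hne
    exact Finset.card_pos.2 ⟨b, (hB b).2 hb⟩
  -- reduce to a finite sum
  rw [finsum_eq_sum_of_support_subset (s := V) _ (by
    intro u hu
    by_contra hn
    apply hu
    have hn' : u ∉ V := hn
    beta_reduce
    rw [hXY u hn', propext (hPKo u hn'), sub_self])]
  set d := labS F with hd
  have hd0 : d ≠ zl := labS_ne F
  set I := (Finset.range M).filter (fun k => K ≤ k ∧ okF k F) with hI
  have hpt : ∀ u ∈ V, ((if u ∈ PK Y K ∧ fam (Y u) = F then (1 : ℝ) else 0) -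
      (if u ∈ PK X K ∧ fam (X u) = F then (1 : ℝ) else 0)) ≤
      (if u ∈ UU Y M then (1 : ℝ) else 0) + ∑ k ∈ I,
        ((if u ∈ SS Y k d ∧ u ∉ CC Y k d then (1 : ℝ) else 0) +
          (if u ∈ CC Y k d then (1 : ℝ) else 0) - (if Lev c k d u then (1 : ℝ) else 0)) := by
    intro u _
    have hY : (if u ∈ PK Y K ∧ fam (Y u) = F then (1 : ℝ) else 0) ≤
        (if u ∈ UU Y M then (1 : ℝ) else 0) + ∑ k ∈ I,
        ((if u ∈ SS Y k d ∧ u ∉ CC Y k d then (1 : ℝ) else 0) +
          (if u ∈ CC Y k d then (1 : ℝ) else 0)) := by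
      have hnn : ∀ k ∈ I, (0 : ℝ) ≤ (if u ∈ SS Y k d ∧ u ∉ CC Y k d then (1 : ℝ) else 0) +
          (if u ∈ CC Y k d then (1 : ℝ) else 0) := by
        intro k _
        split_ifs <;> norm_num
      split_ifs with h1 h2
      · have := Finset.sum_nonneg hnn
        linarith
      · have h3 : ∃ k < M, ∃ d' : Lab, d' ≠ zl ∧ u ∈ SS Y k d' := by
          by_contra h4
          apply h2
          intro k hk d' hd' h5
          exact h4 ⟨k, hk, d', hd', h5⟩
        obtain ⟨k, hk, d', hd', h5⟩ := h3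
        have h6 := SS_lab hd' h5
        have h7 : d' = d := by
          rw [← h6.1, ← labS_fam, h1.2]
        have h8 : okF k F := by
          rw [← h1.2, okF_fam]
          exact h6.2
        rw [h7] at h5
        have h9 : k ∈ I := Finset.mem_filter.2 ⟨Finset.mem_range.2 hk, PK_SS hU hd0 h1.1 h5, h8⟩
        have h10 := Finset.single_le_sum hnn h9
        have h11 : (1 : ℝ) ≤ (if u ∈ SS Y k d ∧ u ∉ CC Y k d then (1 : ℝ) else 0) +
          (if u ∈ CC Y k d then (1 : ℝ) else 0) := by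
          by_cases h12 : u ∈ CC Y k d
          · rw [if_neg (fun h => h.2 h12), if_pos h12]
            norm_num
          · rw [if_pos ⟨h5, h12⟩, if_neg h12]
            norm_num
        linarith
      · have := Finset.sum_nonneg hnn
        linarith
      · have := Finset.sum_nonneg hnn
        linarith
    have hXb : ∑ k ∈ I, (if Lev c k d u then (1 : ℝ) else 0) ≤
        (if u ∈ PK X K ∧ fam (X u) = F then (1 : ℝ) else 0) := by
      by_cases h1 : ∃ k ∈ I, Lev c k d u
      · obtain ⟨k, hk, hl⟩ := h1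
        rw [Finset.sum_eq_single_of_mem k hk]
        · rw [if_pos hl, if_pos]
          obtain ⟨hk1, hk2, hk3⟩ := Finset.mem_filter.1 hk
          have h2 := hc k (Finset.mem_range.1 hk1) d hd0 u (Set.mem_univ _) hl
          refine ⟨?_, fam_of h2.1 h2.2 hk3⟩
          rw [PK_valid hU hX (hc.mono (Set.subset_univ _) hKM)]
          exact hl.1.mono hk2
        · intro k' hk' hne'
          rw [if_neg]
          intro hl'
          exact hne' (Lev_unique hl' hl hd0 hd0).1
      · rw [Finset.sum_eq_zero]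
        · split_ifs <;> norm_num
        · intro k hk
          rw [if_neg fun hl => h1 ⟨k, hk, hl⟩]
    rw [Finset.sum_sub_distrib]
    linarith
  refine (Finset.sum_le_sum hpt).trans ?_
  rw [Finset.sum_add_distrib, Finset.sum_comm (s := V)]
  have e1 : ∑ u ∈ V, (if u ∈ UU Y M then (1 : ℝ) else 0) ≤
      ((1 + 9261 + C1 : ℕ) : ℝ) * B.card + C2 := by
    rw [← Finset.sum_filter, Finset.sum_const, nsmul_eq_mul, mul_one]
    exact_mod_cast unres_count hMu hUn hN hC Y B hB M
  have e2 : ∑ k ∈ I, ∑ u ∈ V, ((if u ∈ SS Y k d ∧ u ∉ CC Y k d then (1 : ℝ) else 0) +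
          (if u ∈ CC Y k d then (1 : ℝ) else 0) - (if Lev c k d u then (1 : ℝ) else 0)) ≤
      (C1 : ℝ) * B.card := by
    have h1 : ∀ k ∈ I, ∑ u ∈ V, ((if u ∈ SS Y k d ∧ u ∉ CC Y k d then (1 : ℝ) else 0) +
          (if u ∈ CC Y k d then (1 : ℝ) else 0) - (if Lev c k d u then (1 : ℝ) else 0)) ≤
          ((V.filter (fun u => u ∈ CC Y k d)).card : ℝ) := by
      intro k hk
      have hkM := Finset.mem_range.1 (Finset.mem_filter.1 hk).1
      rw [Finset.sum_sub_distrib, Finset.sum_add_distrib, ← Finset.sum_filter,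
        ← Finset.sum_filter, ← Finset.sum_filter, Finset.sum_const, Finset.sum_const,
        Finset.sum_const, nsmul_eq_mul, nsmul_eq_mul, nsmul_eq_mul, mul_one, mul_one, mul_one]
      have h2 := inj_count V (hSSo k hkM d hd0)
      have h3 : ((V.filter (fun u => u ∈ SS Y k d ∧ u ∉ CC Y k d)).card : ℝ) ≤
        ((V.filter (fun u => Lev c k d u)).card : ℝ) := by exact_mod_cast h2
      linarith
    refine (Finset.sum_le_sum h1).trans ?_
    have h2 : ∑ k ∈ I, ((V.filter (fun u => u ∈ CC Y k d)).card : ℝ) ≤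
        ∑ k ∈ Finset.range M, ((V.filter (fun u => u ∈ CC Y k d)).card : ℝ) :=
      Finset.sum_le_sum_of_subset_of_nonneg (Finset.filter_subset _ _)
        fun _ _ _ => Nat.cast_nonneg _
    refine h2.trans ?_
    exact_mod_cast conflict_count hMu hCo hN Y B hB V M hd0
  refine (add_le_add e1 e2).trans ?_
  rw [hBc]
  have hB1' : (1 : ℝ) ≤ (B.card : ℝ) := by exact_mod_cast hB1
  have hC2 : (0 : ℝ) ≤ (C2 : ℝ) := Nat.cast_nonneg _
  have : (C2 : ℝ) ≤ C2 * B.card := le_mul_of_one_le_right hC2 hB1'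
  push_cast
  nlinarith

end Pool.Agent.TH793.SB
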