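import Mathlib

set_option autoImplicit false

/-! # The tile set

Sites are the points of `ℤ³`, tiles carry a label in `{0,1}³`, and letters modulo 127 on their
six faces.  Only the interface lemmas at the end of this file are used elsewhere.
-/

namespace Pool.Agent.TH793.SB

/-- sites -/
abbrev Site : Type := Fin 3 → ℤ

/-- labels -/
abbrev Lab : Type := Fin 3 → Bool

/-- tiles: active ones `(κ, j)` and passing ones `(i, a)` -/
abbrev Tile : Type := (Fin 7 × Option (Fin 3)) ⊕ (Fin 3 × ZMod 127)

/-- configurations -/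
abbrev Cfg : Type := Site → Tile

/-- the unit label -/
def el (i : Fin 3) : Lab := fun j => decide (j = i)

/-- flip one entry of a label -/
def flp (i : Fin 3) (d : Lab) : Lab := fun j => if j = i then !(d j) else d j

/-- the zero label -/
def zl : Lab := fun _ => false

/-- label of a tile -/
def lab : Tile → Lab
  | .inl (_, none) => fun _ => true
  | .inl (_, some j) => fun i => decide (i ≠ j)
  | .inr (j, _) => el j

/-- may the tile be used at level `k`? -/
def okLev (k : ℕ) : Tile → Prop
  | .inl (κ, _) => κ.val = k % 7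
  | .inr _ => True

instance (k : ℕ) (t : Tile) : Decidable (okLev k t) := by
  rcases t with ⟨κ, j⟩ | ⟨j, a⟩
  · exact inferInstanceAs (Decidable (κ.val = k % 7))
  · exact inferInstanceAs (Decidable True)

/-- code letters -/
def encN : ℕ → Bool → ℕ
  | 0, false => 105 | 0, true => 35
  | 1, false => 76 | 1, true => 72
  | 2, false => 26 | 2, true => 41
  | 3, false => 40 | 3, true => 6
  | 4, false => 38 | 4, true => 75
  | 5, false => 71 | 5, true => 68
  | _, false => 69 | _, true => 30

/-- letter entering an active tile -/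
def inA (i : Fin 3) (κ : ℕ) : Option (Fin 3) → ℕ
  | none => encN κ false + 2 ^ κ
  | some j => if j = i then encN κ true + 2 ^ κ else if j = i + 1 then 110 + 2 ^ κ else 115 + 2 ^ κ

/-- letter leaving an active tile -/
def outA (i : Fin 3) (κ : ℕ) : Option (Fin 3) → ℕ
  | none => encN κ true
  | some j => if j = i then encN κ false else
      if j = i + 1 then 65 + 127 - 2 ^ κ else 25 + 127 - 2 ^ κ

/-- letter entering a tile in direction `i` -/
def In (i : Fin 3) : Tile → ZMod 127
  | .inl (κ, j) => (inA i κ.val j : ℕ)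
  | .inr (j, a) => if j = i then a else if j = i + 1 then 25 else 65

/-- letter leaving a tile in direction `i` -/
def Out (i : Fin 3) : Tile → ZMod 127
  | .inl (κ, j) => (outA i κ.val j : ℕ)
  | .inr (j, a) => if j = i then a else if j = i + 1 then 115 else 110

/-! ## finite checks -/

/-- stop types: active tiles and the two passing kinds -/
abbrev ST : Type := (Fin 7 × Option (Fin 3)) ⊕ Fin 3

def inS (i : Fin 3) : ST → ℕ
  | .inl (κ, j) => inA i κ.val j
  | .inr j => if j = i + 1 then 25 else 65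

def outS (i : Fin 3) : ST → ℕ
  | .inl (κ, j) => outA i κ.val j
  | .inr j => if j = i + 1 then 115 else 110

def labS : ST → Lab
  | .inl (_, none) => fun _ => true
  | .inl (_, some j) => fun i => decide (i ≠ j)
  | .inr j => el j

def okS (k : Fin 7) : ST → Bool
  | .inl (κ, _) => decide (κ = k)
  | .inr _ => true

def rule1 (i : Fin 3) (k : Fin 7) (s t : ST) : Bool :=
  !(decide ((outS i s + 2 ^ k.val) % 127 = (inS i t) % 127)) ||
    decide (s = .inr i) || decide (t = .inr i) ||
    (decide (labS t = flp i (labS s)) && okS k s && okS k t)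

def rule2 (i : Fin 3) (k : Fin 7) (s t : ST) : Bool :=
  (decide ((outS i s + 2 ^ k.val) % 127 = (inS i t) % 127)) ||
    decide (s = .inr i) || decide (t = .inr i) ||
    !(decide (labS t = flp i (labS s)) && okS k s && okS k t)

lemma rule1_all : ∀ (i : Fin 3) (k : Fin 7) (s t : ST), rule1 i k s t = true := by
  decide +kernel

lemma rule2_all : ∀ (i : Fin 3) (k : Fin 7) (s t : ST), rule2 i k s t = true := by
  decide +kernel

/-- family of a tile -/
def fam : Tile → ST
  | .inl a => .inl a
  | .inr (j, _) => .inr j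

/-- may the family be used at level `k`? -/
def okF (k : ℕ) : ST → Prop
  | .inl (κ, _) => κ.val = k % 7
  | .inr _ => True

lemma labS_fam (t : Tile) : labS (fam t) = lab t := by
  rcases t with ⟨κ, _ | j⟩ | ⟨j, a⟩ <;> rfl

lemma okF_fam (k : ℕ) (t : Tile) : okF k (fam t) ↔ okLev k t := by
  rcases t with ⟨κ, j⟩ | ⟨j, a⟩ <;> rfl

lemma lab_inr (j : Fin 3) (a : ZMod 127) : lab (.inr (j, a)) = el j := rfl

lemma el_inj {i j : Fin 3} (h : el i = el j) : i = j := by
  have := congrFun h i
  simp only [el, decide_true] at this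
  exact of_decide_eq_true this.symm

lemma lab_ne (t : Tile) : lab t ≠ zl := by
  rcases t with ⟨κ, _ | j⟩ | ⟨j, a⟩
  · intro h
    have := congrFun h 0
    simp [lab, zl] at this
  · intro h
    have := congrFun h (j + 1)
    simp only [lab, zl, decide_eq_false_iff_not, ne_eq, not_not] at this
    clear h
    revert this j
    decide
  · intro h
    have := congrFun h j
    simp [lab, zl, el] at this

lemma lab_act_ne (κ : Fin 7) (j : Option (Fin 3)) (i : Fin 3) :
    lab (.inl (κ, j)) ≠ el i := by
  revert κ j i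
  have : ∀ (j : Option (Fin 3)) (i : Fin 3), lab (.inl (0, j)) ≠ el i := by decide
  intro κ j i
  have h := this j i
  rcases j with _ | j <;> exact h

lemma stop_iff (i : Fin 3) (t : Tile) : lab t ≠ el i ↔ fam t ≠ .inr i := by
  rcases t with ⟨κ, j⟩ | ⟨j, a⟩
  · simp only [fam, ne_eq, reduceCtorEq, not_false_eq_true, iff_true]
    exact lab_act_ne κ j i
  · simp only [fam, lab_inr, ne_eq, Sum.inr.injEq]
    constructor
    · intro h h2
      exact h (by rw [h2])
    · intro h h2
      exact h (el_inj h2)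

lemma In_fam {i : Fin 3} {t : Tile} (h : lab t ≠ el i) : In i t = (inS i (fam t) : ℕ) := by
  rw [stop_iff] at h
  rcases t with ⟨κ, j⟩ | ⟨j, a⟩
  · rfl
  · have hj : j ≠ i := fun h2 => h (by rw [h2]; rfl)
    simp only [In, fam, inS, if_neg hj]
    split_ifs <;> rfl

lemma Out_fam {i : Fin 3} {t : Tile} (h : lab t ≠ el i) : Out i t = (outS i (fam t) : ℕ) := by
  rw [stop_iff] at h
  rcases t with ⟨κ, j⟩ | ⟨j, a⟩
  · rfl
  · have hj : j ≠ i := fun h2 => h (by rw [h2]; rfl)
    simp only [Out, fam, outS, if_neg hj]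
    split_ifs <;> rfl

lemma two_pow_mod (k : ℕ) : (2 : ZMod 127) ^ k = ((2 ^ (k % 7) : ℕ) : ZMod 127) := by
  conv_lhs => rw [← Nat.div_add_mod k 7]
  rw [pow_add, pow_mul]
  have : (2 : ZMod 127) ^ 7 = 1 := by decide
  rw [this, one_pow, one_mul]
  push_cast
  rfl

lemma okS_iff (k : ℕ) (s : ST) :
    okS ⟨k % 7, Nat.mod_lt _ (by norm_num)⟩ s = true ↔ okF k s := by
  rcases s with ⟨κ, j⟩ | j
  · simp only [okS, okF, decide_eq_true_eq, Fin.ext_iff]
  · simp [okS, okF]

/-! ## interface -/

/-- in passing direction nothing changes -/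
lemma pass {i : Fin 3} {t : Tile} (h : lab t = el i) : Out i t = In i t := by
  rcases t with ⟨κ, j⟩ | ⟨j, a⟩
  · exact absurd h (lab_act_ne κ j i)
  · have hj : j = i := el_inj h
    simp [In, Out, hj]

/-- a passing tile is determined by its letter -/
lemma pass_inj {i : Fin 3} {s t : Tile} (hs : lab s = el i) (ht : lab t = el i)
    (h : In i s = In i t) : s = t := by
  rcases s with ⟨κ, j⟩ | ⟨j, a⟩
  · exact absurd hs (lab_act_ne κ j i)
  rcases t with ⟨κ, j'⟩ | ⟨j', a'⟩
  · exact absurd ht (lab_act_ne κ j' i)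
  have hj : j = i := el_inj hs
  have hj' : j' = i := el_inj ht
  simp only [In, hj, hj', if_true] at h
  rw [hj, hj', h]

/-- **Rule R.** A line of length `2 ^ k` between two stops flips the label, and the active ends of
the line are of level `k` modulo `7`. -/
lemma ruleR {i : Fin 3} {k : ℕ} {s t : Tile} (hs : lab s ≠ el i) (ht : lab t ≠ el i)
    (h : In i t = Out i s + 2 ^ k) :
    lab t = flp i (lab s) ∧ okLev k s ∧ okLev k t := by
  rw [In_fam ht, Out_fam hs, two_pow_mod, ← Nat.cast_add, ZMod.natCast_eq_natCast_iff] at h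
  have h1 := rule1_all i ⟨k % 7, Nat.mod_lt _ (by norm_num)⟩ (fam s) (fam t)
  rw [stop_iff] at hs ht
  simp only [rule1, Bool.or_eq_true, Bool.not_eq_true', decide_eq_false_iff_not, hs, ht,
    decide_false, Bool.and_eq_true, decide_eq_true_eq, or_false, Bool.false_eq_true,
    okS_iff, labS_fam, okF_fam] at h1
  rcases h1 with h1 | ⟨⟨h1, h2⟩, h3⟩
  · exact absurd h.symm h1
  · exact ⟨h1, h2, h3⟩

/-- converse of rule R -/
lemma ruleR_conv {i : Fin 3} {k : ℕ} {s t : Tile} (hs : lab s ≠ el i) (ht : lab t ≠ el i)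
    (h : lab t = flp i (lab s)) (h2 : okLev k s) (h3 : okLev k t) :
    In i t = Out i s + 2 ^ k := by
  rw [In_fam ht, Out_fam hs, two_pow_mod, ← Nat.cast_add, ZMod.natCast_eq_natCast_iff]
  have h1 := rule2_all i ⟨k % 7, Nat.mod_lt _ (by norm_num)⟩ (fam s) (fam t)
  rw [stop_iff] at hs ht
  simp only [rule2, Bool.or_eq_true, Bool.not_eq_true', decide_eq_true_eq, hs, ht,
    decide_false, Bool.and_eq_false_iff, decide_eq_false_iff_not, or_false, Bool.false_eq_true,
    labS_fam, h, not_true_eq_false, false_or] at h1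
  rcases h1 with h1 | h1 | h1
  · exact h1.symm
  · rw [← Bool.not_eq_true, okS_iff, okF_fam] at h1
    exact absurd h2 h1
  · rw [← Bool.not_eq_true, okS_iff, okF_fam] at h1
    exact absurd h3 h1

/-- label and level determine the family -/
lemma fam_eq {k : ℕ} {s t : Tile} (h : lab s = lab t) (hs : okLev k s) (ht : okLev k t) :
    fam s = fam t := by
  rcases s with ⟨κ, j⟩ | ⟨j, a⟩ <;> rcases t with ⟨κ', j'⟩ | ⟨j', a'⟩
  · simp only [okLev] at hs ht
    have hk : κ = κ' := Fin.ext (hs.trans ht.symm)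
    subst hk
    have : ∀ j j' : Option (Fin 3), lab (.inl (0, j)) = lab (.inl (0, j')) → j = j' := by decide
    have hj := this j j' (by rcases j with _ | j <;> rcases j' with _ | j' <;> exact h)
    rw [hj]
  · exact absurd h (lab_act_ne κ j j')
  · exact absurd h.symm (lab_act_ne κ' j' j)
  · have := el_inj (h : el j = el j')
    subst this
    rfl

/-- stops of the same label and level have the same letters -/
lemma stop_eq {i : Fin 3} {k : ℕ} {s t : Tile} (h : lab s = lab t) (hs : okLev k s)
    (ht : okLev k t) (hi : lab s ≠ el i) : In i s = In i t ∧ Out i s = Out i t := by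
  have hi' : lab t ≠ el i := h ▸ hi
  rw [In_fam hi, In_fam hi', Out_fam hi, Out_fam hi', fam_eq h hs ht]
  exact ⟨rfl, rfl⟩

/-- active tiles of the same label and level are equal -/
lemma act_eq {k : ℕ} {s t : Tile} (h : lab s = lab t) (hs : okLev k s)
    (ht : okLev k t) (hi : ∀ i, lab s ≠ el i) : s = t := by
  have h1 := fam_eq h hs ht
  rcases s with ⟨κ, j⟩ | ⟨j, a⟩ <;> rcases t with ⟨κ', j'⟩ | ⟨j', a'⟩
  · simp only [fam, Sum.inl.injEq] at h1
    rw [h1]
  · simp [fam] at h1
  · simp [fam] at h1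
  · exact absurd rfl (hi j)

/-- for every label and level there is a tile -/
lemma exists_tile (k : ℕ) {d : Lab} (hd : d ≠ zl) : ∃ t, lab t = d ∧ okLev k t := by
  have : ∀ (κ : Fin 7) (d : Lab), d ≠ zl → (∃ j : Option (Fin 3), lab (.inl (κ, j)) = d) ∨
      ∃ j : Fin 3, el j = d := by decide
  rcases this ⟨k % 7, Nat.mod_lt _ (by norm_num)⟩ d hd with ⟨j, hj⟩ | ⟨j, hj⟩
  · exact ⟨_, hj, rfl⟩
  · exact ⟨.inr (j, 0), hj, trivial⟩

lemma okLev_mod {k k' : ℕ} (h : k % 7 = k' % 7) {t : Tile} (ht : okLev k t) : okLev k' t := by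
  rcases t with ⟨κ, j⟩ | ⟨j, a⟩
  · exact (ht : κ.val = k % 7).trans h
  · trivial

lemma inout_act : ∀ (i : Fin 3) (κ : Fin 7) (j : Option (Fin 3)),
    inA i κ.val j % 127 ≠ outA i κ.val j % 127 := by
  decide +kernel

lemma act_inj : ∀ (κ κ' : Fin 7) (j j' : Option (Fin 3)),
    (∀ i : Fin 3, inA i κ.val j % 127 = inA i κ'.val j' % 127 ∧
      outA i κ.val j % 127 = outA i κ'.val j' % 127) → κ = κ' ∧ j = j' := by
  decide +kernel

/-- the six letters of a tile determine it -/
lemma inj {s t : Tile} (h : ∀ i, In i s = In i t ∧ Out i s = Out i t) : s = t := by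
  have key : ∀ (κ : Fin 7) (j : Option (Fin 3)) (l : Fin 3) (a : ZMod 127),
      ¬ ∀ i, In i (.inl (κ, j)) = In i (.inr (l, a)) ∧
        Out i (.inl (κ, j)) = Out i (.inr (l, a)) := by
    intro κ j l a h
    obtain ⟨h1, h2⟩ := h l
    simp only [In, Out, if_true] at h1 h2
    have h3 : ((inA l κ.val j : ℕ) : ZMod 127) = ((outA l κ.val j : ℕ) : ZMod 127) :=
      h1.trans h2.symm
    rw [ZMod.natCast_eq_natCast_iff] at h3
    exact inout_act l κ j h3
  rcases s with ⟨κ, j⟩ | ⟨j, a⟩ <;> rcases t with ⟨κ', j'⟩ | ⟨j', a'⟩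
  · have h1 := act_inj κ κ' j j' fun i => by
      obtain ⟨h1, h2⟩ := h i
      simp only [In, Out] at h1 h2
      rw [ZMod.natCast_eq_natCast_iff] at h1 h2
      exact ⟨h1, h2⟩
    rw [h1.1, h1.2]
  · exact absurd h (key κ j j' a')
  · exact absurd (fun i => ⟨(h i).1.symm, (h i).2.symm⟩) (key κ' j' j a)
  · by_cases hj : j = j'
    · subst hj
      have := (h j).1
      simp only [In, if_true] at this
      rw [this]
    · exfalso
      obtain ⟨h1, h2⟩ := h j
      simp only [In, Out, if_true, if_neg (Ne.symm hj)] at h1 h2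
      rw [h1] at h2
      split_ifs at h2
      · exact absurd h2 (by decide)
      · exact absurd h2 (by decide)

end Pool.Agent.TH793.SB
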